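import Pool.Agent.TH636.KT.Main

/-!
# Kalai's bound in the shadow form passes to cones
-/

set_option autoImplicit false

namespace Pool.Agent.TH636.KT

open Finset

/-- Kalai's bound in the shadow form for the tree with the edges `e 0, ..., e (t - 1)` -/
def K (r t : ℕ) (e : ℕ → Finset ℕ) : Prop :=
  ∀ (n : ℕ) (H : Finset (Finset (Fin n))), (∀ h ∈ H, h.card = r) →
    (¬ ∃ f : ℕ → Fin n, Set.InjOn f {x : ℕ | ∃ i, i < t ∧ x ∈ e i} ∧
      ∀ i, i < t → (e i).image f ∈ H) →
    r * H.card ≤ (t - 1) * (shadow H).card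

lemma sum_card {n : ℕ} (A : Finset (Finset (Fin n))) (r : ℕ) (hA : ∀ h ∈ A, h.card = r) :
    ∑ z : Fin n, (A.filter (fun h => z ∈ h)).card = r * A.card := by
  simp only [card_filter]
  rw [sum_comm]
  have h1 : ∀ h ∈ A, ∑ z : Fin n, (if z ∈ h then 1 else 0) = r := by
    intro h hh
    rw [← card_filter, filter_univ_mem, hA h hh]
  rw [sum_congr rfl h1, sum_const, smul_eq_mul, mul_comm]

lemma cone {r t : ℕ} (hr : 1 ≤ r) {e : ℕ → Finset ℕ} {v : ℕ} (hv : ∀ i, i < t → v ∈ e i)
    (hK : K r t (fun i => (e i).erase v)) : K (r + 1) t e := by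
  intro n H huni hno
  set L : Fin n → Finset (Finset (Fin n)) :=
    fun z => (H.filter (fun h => z ∈ h)).image (fun h => h.erase z) with hL
  have hmem : ∀ z g, g ∈ L z ↔ z ∉ g ∧ insert z g ∈ H := by
    intro z g
    simp only [hL, mem_image, mem_filter]
    constructor
    · rintro ⟨h, ⟨h1, h2⟩, rfl⟩
      exact ⟨notMem_erase z h, by rwa [insert_erase h2]⟩
    · rintro ⟨h1, h2⟩
      exact ⟨insert z g, ⟨h2, mem_insert_self _ _⟩, erase_insert h1⟩
  have hLc : ∀ z, (L z).card = (H.filter (fun h => z ∈ h)).card := by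
    intro z
    refine card_image_of_injOn ?_
    intro a ha b hb hab
    have ha2 := (mem_filter.1 (Finset.mem_coe.1 ha)).2
    have hb2 := (mem_filter.1 (Finset.mem_coe.1 hb)).2
    have hab' : a.erase z = b.erase z := hab
    rw [← insert_erase ha2, ← insert_erase hb2, hab']
  have huni2 : ∀ z, ∀ g ∈ L z, g.card = r := by
    intro z g hg
    obtain ⟨h1, h2⟩ := (hmem z g).1 hg
    have h3 := huni _ h2
    rw [card_insert_of_notMem h1] at h3
    omega
  have hbd : ∀ z, r * (L z).card ≤ (t - 1) * (shadow (L z)).card := by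
    intro z
    refine hK n (L z) (huni2 z) ?_
    rintro ⟨f, hf1, hf2⟩
    apply hno
    have hz : ∀ x, (∃ i, i < t ∧ x ∈ (e i).erase v) → f x ≠ z := by
      rintro x ⟨i, hi, hx⟩ h
      exact ((hmem z _).1 (hf2 i hi)).1 (h ▸ mem_image_of_mem f hx)
    have hup : ∀ x, x ≠ v → Function.update f v z x = f x := fun x hx =>
      Function.update_of_ne hx _ _
    refine ⟨Function.update f v z, ?_, ?_⟩
    · intro a ha b hb hab
      obtain ⟨i, hi, hai⟩ := ha
      obtain ⟨j, hj, hbj⟩ := hb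
      by_cases hav : a = v
      · by_cases hbv : b = v
        · rw [hav, hbv]
        · exfalso
          rw [hav, Function.update_self, hup b hbv] at hab
          exact hz b ⟨j, hj, mem_erase.2 ⟨hbv, hbj⟩⟩ hab.symm
      · by_cases hbv : b = v
        · exfalso
          rw [hbv, Function.update_self, hup a hav] at hab
          exact hz a ⟨i, hi, mem_erase.2 ⟨hav, hai⟩⟩ hab
        · rw [hup a hav, hup b hbv] at hab
          exact hf1 ⟨i, hi, mem_erase.2 ⟨hav, hai⟩⟩ ⟨j, hj, mem_erase.2 ⟨hbv, hbj⟩⟩ hab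
    · intro i hi
      have h1 : ((e i).erase v).image (Function.update f v z) = ((e i).erase v).image f :=
        image_congr fun x hx => hup x (ne_of_mem_erase (Finset.mem_coe.1 hx))
      rw [← insert_erase (hv i hi), image_insert, Function.update_self, h1]
      exact ((hmem z _).1 (hf2 i hi)).2
  have hsh : ∀ z, (shadow (L z)).card ≤ ((shadow H).filter (fun g => z ∈ g)).card := by
    intro z
    have hz : ∀ g ∈ shadow (L z), z ∉ g ∧ insert z g ∈ shadow H := by
      intro g hg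
      obtain ⟨a, ha, h1⟩ := mem_shadow_iff_insert_mem.1 hg
      obtain ⟨h2, h3⟩ := (hmem z _).1 h1
      rw [mem_insert, not_or] at h2
      refine ⟨h2.2, mem_shadow_iff_insert_mem.2 ⟨a, ?_, ?_⟩⟩
      · rw [mem_insert, not_or]
        exact ⟨Ne.symm h2.1, ha⟩
      · rwa [Finset.insert_comm]
    refine card_le_card_of_injOn (fun g => insert z g) ?_ ?_
    · intro g hg
      exact Finset.mem_coe.2 (mem_filter.2 ⟨(hz g (Finset.mem_coe.1 hg)).2, mem_insert_self _ _⟩)
    · intro a ha b hb hab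
      have ha2 := (hz a (Finset.mem_coe.1 ha)).1
      have hb2 := (hz b (Finset.mem_coe.1 hb)).1
      have hab' : insert z a = insert z b := hab
      rw [← erase_insert ha2, ← erase_insert hb2, hab']
  have huni3 : ∀ g ∈ shadow H, g.card = r := by
    intro g hg
    obtain ⟨a, ha, h1⟩ := mem_shadow_iff_insert_mem.1 hg
    have h2 := huni _ h1
    rw [card_insert_of_notMem ha] at h2
    omega
  have h1 : r * ((r + 1) * H.card) ≤ (t - 1) * (r * (shadow H).card) := by
    rw [← sum_card H (r + 1) huni, ← sum_card (shadow H) r huni3, mul_sum, mul_sum]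
    refine sum_le_sum fun z _ => ?_
    rw [← hLc]
    exact (hbd z).trans (Nat.mul_le_mul_left _ (hsh z))
  have h2 : r * ((r + 1) * H.card) ≤ r * ((t - 1) * (shadow H).card) := by
    calc r * ((r + 1) * H.card) ≤ (t - 1) * (r * (shadow H).card) := h1
      _ = r * ((t - 1) * (shadow H).card) := by ring
  exact Nat.le_of_mul_le_mul_left h2 (by omega)

lemma K_congr {r t : ℕ} {e e' : ℕ → Finset ℕ} (h : ∀ i, i < t → e i = e' i) (hK : K r t e) :
    K r t e' := by
  intro n H huni hno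
  refine hK n H huni ?_
  rintro ⟨f, hf1, hf2⟩
  refine hno ⟨f, ?_, fun i hi => by rw [← h i hi]; exact hf2 i hi⟩
  refine hf1.mono ?_
  rintro x ⟨i, hi, hx⟩
  exact ⟨i, hi, by rw [h i hi]; exact hx⟩

lemma cones {t : ℕ} (S : Finset ℕ) : ∀ (r : ℕ) (e : ℕ → Finset ℕ), (∀ i, i < t → S ⊆ e i) →
    S.card < r → K (r - S.card) t (fun i => e i \ S) → K r t e := by
  induction S using Finset.induction_on with
  | empty =>
    intro r e _ _ hK
    simpa using hK
  | insert v S hvS ih =>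
    intro r e hS hr hK
    rw [card_insert_of_notMem hvS] at hr hK
    refine ih r e (fun i hi => (subset_insert v S).trans (hS i hi)) (by omega) ?_
    have h1 : r - S.card = (r - (S.card + 1)) + 1 := by omega
    rw [h1]
    refine cone (v := v) (by omega) ?_ ?_
    · intro i hi
      exact mem_sdiff.2 ⟨hS i hi (mem_insert_self _ _), hvS⟩
    · refine K_congr ?_ hK
      intro i _
      ext x
      simp only [mem_sdiff, mem_insert, mem_erase]
      tauto

theorem hubS (r t c : ℕ) (hc : 1 ≤ c) (hct : c ≤ t) (e : ℕ → Finset ℕ)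
    (hcard : ∀ i, i < t → (e i).card = r)
    (htight : ∀ i, 0 < i → i < t →
      ∃ v ∈ e i, (∀ j, j < i → v ∉ e j) ∧ ∃ j, j < i ∧ e i \ {v} ⊆ e j)
    (hleaf : ∀ i, c ≤ i → i < t → ∃ v ∈ e i, (∀ j, j < i → v ∉ e j) ∧ e i \ {v} ⊆ e 0)
    (S : Finset ℕ) (hS : ∀ i, i < t → S ⊆ e i) (hSr : S.card + 2 ≤ r)
    (X : Fin (r - S.card) → ℕ) (hX : Function.Injective X) (hXe : ∀ k, X k ∈ e 0 \ S)
    (hload : ∀ j : Fin (r - S.card), (r - S.card) *
      ((∑ k with k ≤ j, ((Ico c t).filter fun i => X k ∉ e i).card) + (c - 1)) ≤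
        (j.1 + 1) * (t - 1)) : K r t e := by
  refine cones S r e hS (by omega) ?_
  intro n H huni hno
  have hnew : ∀ i v, 0 < i → i < t → (∀ j, j < i → v ∉ e j) → v ∉ S := fun i v h1 h2 h3 h4 =>
    h3 0 h1 (hS 0 (by omega) h4)
  refine hub (r - S.card) t c (by omega) hc hct (fun i => e i \ S) ?_ ?_ ?_ X hX hXe ?_ H huni hno
  · intro i hi
    rw [card_sdiff_of_subset (hS i hi), hcard i hi]
  · intro i hi0 hi
    obtain ⟨v, hv, h1, j, hj, h2⟩ := htight i hi0 hi
    refine ⟨v, mem_sdiff.2 ⟨hv, hnew i v hi0 hi h1⟩, fun k hk h => h1 k hk (mem_sdiff.1 h).1, j, hj,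
      ?_⟩
    intro x hx
    rw [mem_sdiff, mem_sdiff] at hx
    exact mem_sdiff.2 ⟨h2 (mem_sdiff.2 ⟨hx.1.1, hx.2⟩), hx.1.2⟩
  · intro i hci hi
    obtain ⟨v, hv, h1, h2⟩ := hleaf i hci hi
    refine ⟨v, mem_sdiff.2 ⟨hv, hnew i v (by omega) hi h1⟩,
      fun k hk h => h1 k hk (mem_sdiff.1 h).1, ?_⟩
    intro x hx
    rw [mem_sdiff, mem_sdiff] at hx
    exact mem_sdiff.2 ⟨h2 (mem_sdiff.2 ⟨hx.1.1, hx.2⟩), hx.1.2⟩
  · intro j
    refine le_trans (Nat.mul_le_mul_left _ (Nat.add_le_add_right (sum_le_sum fun k _ => ?_) _))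
      (hload j)
    refine card_le_card ?_
    intro i hi
    rw [mem_filter] at hi ⊢
    exact ⟨hi.1, fun h => hi.2 (mem_sdiff.2 ⟨h, (mem_sdiff.1 (hXe k)).2⟩)⟩

end Pool.Agent.TH636.KT
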