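import Pool.Agent.TH636.KT.Hub

/-!
# Tight trees with a hub: the embedding
-/

set_option autoImplicit false

namespace Pool.Agent.TH636.KT

open Finset

variable {n : ℕ}

/-- the vertices of the first `i` edges -/
def vs (e : ℕ → Finset ℕ) (i : ℕ) : Finset ℕ := (range i).biUnion e

lemma sub_vs {e : ℕ → Finset ℕ} {i j : ℕ} (h : j < i) : e j ⊆ vs e i :=
  subset_biUnion_of_mem e (mem_range.2 h)

lemma vs_succ (e : ℕ → Finset ℕ) (i : ℕ) : vs e (i + 1) = e i ∪ vs e i := by
  rw [vs, range_add_one, biUnion_insert, vs]

/-- a facet -/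
lemma facet {r : ℕ} {f g : Finset ℕ} (hfg : f ⊆ g) (hf : f.card + 1 = r) (hg : g.card = r) :
    ∃ u ∈ g, u ∉ f ∧ insert u f = g := by
  have h1 : f.card < g.card := by omega
  obtain ⟨u, hu, huf⟩ := exists_mem_notMem_of_card_lt_card h1
  refine ⟨u, hu, huf, eq_of_subset_of_card_le (insert_subset hu hfg) ?_⟩
  rw [card_insert_of_notMem huf]
  omega

/-- the neighbours of the image of a facet that are already used -/
lemma used {H : Finset (Finset (Fin n))} {φ : ℕ → Fin n} {V f : Finset ℕ}
    (hfV : f ⊆ V) : (nb H (f.image φ) ∩ V.image φ).card + f.card ≤ V.card := by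
  have h1 : nb H (f.image φ) ∩ V.image φ ⊆ (V \ f).image φ := by
    intro w hw
    obtain ⟨hw1, hw2⟩ := mem_inter.1 hw
    have h2 := (mem_nb.1 hw1).1
    obtain ⟨x, hx, rfl⟩ := mem_image.1 hw2
    refine mem_image_of_mem _ (mem_sdiff.2 ⟨hx, fun hxf => h2 (mem_image_of_mem _ hxf)⟩)
  have h2 := (card_le_card h1).trans card_image_le
  rw [card_sdiff_of_subset hfV] at h2
  have h3 := card_le_card hfV
  omega

lemma trunk {r c : ℕ} {H : Finset (Finset (Fin n))} {e : ℕ → Finset ℕ}
    (hr : 1 ≤ r) (hcard : ∀ i, i < c → (e i).card = r)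
    (htight : ∀ i, 0 < i → i < c →
      ∃ v ∈ e i, (∀ j, j < i → v ∉ e j) ∧ ∃ j, j < i ∧ e i \ {v} ⊆ e j)
    (hdeg : ∀ f ∈ shadow H, c ≤ (nb H f).card) (φ0 : ℕ → Fin n)
    (hφ0 : Set.InjOn φ0 (e 0)) (h0 : (e 0).image φ0 ∈ H) :
    ∀ i, 1 ≤ i → i ≤ c → ∃ φ : ℕ → Fin n, (∀ x ∈ e 0, φ x = φ0 x) ∧ Set.InjOn φ (vs e i) ∧
      (∀ j, j < i → (e j).image φ ∈ H) ∧ (vs e i).card + 1 ≤ r + i := by
  intro i hi
  induction i, hi using Nat.le_induction with
  | base =>
    intro hc
    have h1 : vs e 1 = e 0 := by simp [vs]
    refine ⟨φ0, fun _ _ => rfl, by rw [h1]; exact hφ0, ?_, ?_⟩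
    · intro j hj
      have : j = 0 := by omega
      rw [this]; exact h0
    · rw [h1, hcard 0 (by omega)]
  | succ i hi ih =>
    intro hc
    obtain ⟨φ, hφ1, hφ2, hφ3, hφ4⟩ := ih (by omega)
    obtain ⟨v, hv, hnew, j, hj, hsub⟩ := htight i (by omega) (by omega)
    set f := e i \ {v} with hf
    have hfc : f.card + 1 = r := by
      have h1 : f = (e i).erase v := sdiff_singleton_eq_erase v (e i)
      rw [h1, card_erase_of_mem hv, hcard i (by omega)]
      omega
    have hvf : v ∉ f := by simp [hf]
    have hins : insert v f = e i := by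
      rw [hf, sdiff_singleton_eq_erase, insert_erase hv]
    have hfV : f ⊆ vs e i := hsub.trans (sub_vs hj)
    obtain ⟨u, hu, huf, hins2⟩ := facet hsub hfc (hcard j (by omega))
    have hsh : f.image φ ∈ shadow H := by
      rw [mem_shadow_iff_insert_mem]
      refine ⟨φ u, ?_, ?_⟩
      · intro h
        obtain ⟨z, hz, hzu⟩ := mem_image.1 h
        have : z = u := hφ2 (by exact_mod_cast hfV hz) (by exact_mod_cast sub_vs hj hu) hzu
        exact huf (this ▸ hz)
      · rw [← image_insert, hins2]
        exact hφ3 j hj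
    obtain ⟨w, hw, hwV⟩ : ∃ w ∈ nb H (f.image φ), w ∉ (vs e i).image φ := by
      by_contra hcon
      push Not at hcon
      have h1 : nb H (f.image φ) ∩ (vs e i).image φ = nb H (f.image φ) :=
        inter_eq_left.2 fun w hw => hcon w hw
      have h2 := used (H := H) (φ := φ) hfV
      rw [h1] at h2
      have h3 := hdeg _ hsh
      omega
    have hvV : v ∉ vs e i := by
      intro h
      obtain ⟨k, hk, hvk⟩ := mem_biUnion.1 h
      exact hnew k (mem_range.1 hk) hvk
    have hupd : ∀ x ∈ vs e i, Function.update φ v w x = φ x := by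
      intro x hx
      rw [Function.update_of_ne]
      rintro rfl
      exact hvV hx
    have hVsub : vs e (i + 1) = insert v (vs e i) := by
      rw [vs_succ]
      ext x
      simp only [mem_union, mem_insert]
      constructor
      · rintro (h | h)
        · rw [← hins, mem_insert] at h
          rcases h with h | h
          · exact Or.inl h
          · exact Or.inr (hfV h)
        · exact Or.inr h
      · rintro (h | h)
        · exact Or.inl (h ▸ hv)
        · exact Or.inr h
    refine ⟨Function.update φ v w, ?_, ?_, ?_, ?_⟩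
    · intro x hx
      rw [hupd x (sub_vs (by omega) hx), hφ1 x hx]
    · rw [hVsub, coe_insert]
      intro x hx y hy hxy
      rw [Set.mem_insert_iff] at hx hy
      rcases hx with rfl | hx
      · rcases hy with rfl | hy
        · rfl
        · exfalso
          rw [Function.update_self, hupd y (by exact_mod_cast hy)] at hxy
          exact hwV (hxy ▸ mem_image_of_mem _ (by exact_mod_cast hy))
      · rcases hy with rfl | hy
        · exfalso
          rw [Function.update_self, hupd x (by exact_mod_cast hx)] at hxy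
          exact hwV (hxy ▸ mem_image_of_mem _ (by exact_mod_cast hx))
        · rw [hupd x (by exact_mod_cast hx), hupd y (by exact_mod_cast hy)] at hxy
          exact hφ2 hx hy hxy
    · intro k hk
      have hk' : k < i ∨ k = i := by omega
      rcases hk' with hk' | rfl
      · have : (e k).image (Function.update φ v w) = (e k).image φ :=
          image_congr fun x hx => hupd x (sub_vs hk' (by exact_mod_cast hx))
        rw [this]
        exact hφ3 k hk'
      · have h1 : f.image (Function.update φ v w) = f.image φ :=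
          image_congr fun x hx => hupd x (hfV (by exact_mod_cast hx))
        rw [← hins, image_insert, Function.update_self, h1]
        exact (mem_nb.1 hw).2
    · rw [hVsub, card_insert_of_notMem hvV]
      omega

end Pool.Agent.TH636.KT
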