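import Pool.Agent.TH636.KT.Walk

/-!
# A good homomorphism of the trunk
-/

set_option autoImplicit false

namespace Pool.Agent.TH636.KT

open Finset

variable {n r : ℕ}

section

variable {H : Finset (Finset (Fin n))} {c : ℕ} {e : ℕ → Finset ℕ} {v : ℕ → ℕ} {X0 : Fin r → ℕ}
  {b : ℕ → Fin n}

/-- independence of the later vertices -/
lemma Tr.indep_le (ht : Tr r c e v X0) (hH : ∀ h ∈ H, h.card = r) {k m : ℕ} (hkm : k ≤ m)
    (hm : m < c) (Φ : (ℕ → Fin n) → ℚ)
    (hΦ : ∀ j, k < j → j < c → ∀ φ w, Φ (Function.update φ (v j) w) = Φ φ) :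
    T H e v X0 b m Φ = T H e v X0 b k Φ := by
  induction m, hkm using Nat.le_induction with
  | base => rfl
  | succ m hkm ih =>
    rw [ht.indep hH hm Φ (hΦ (m + 1) (by omega) hm), ih (by omega)]

/-- the marginal law of a facet -/
lemma Tr.flaw (ht : Tr r c e v X0) (hH : ∀ h ∈ H, h.card = r) {m p : ℕ} (hm : m < c) (hp : p ≤ m)
    {g : Finset ℕ} (hg : g ⊆ e p) (hgc : g.card + 1 = r) (G : Finset (Fin n) → ℚ) :
    (r : ℚ) * T H e v X0 b m (fun φ => G (g.image φ)) =
      r.factorial * ∑ f ∈ shadow H, (nb H f).card * G f := by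
  obtain ⟨u, hu, hug, hins⟩ := facet (r := r) hg hgc (ht.card p (by omega))
  set q : Fin r ≃ e p := ((e p).equivFinOfCardEq (ht.card p (by omega))).symm with hq
  set X : Fin r → ℕ := fun i => (q i : ℕ) with hX
  have hXi : Function.Injective X := fun a b hab => q.injective (Subtype.ext hab)
  have hXe : univ.image X = e p := by
    ext x
    simp only [mem_image, mem_univ, true_and]
    constructor
    · rintro ⟨i, rfl⟩
      exact (q i).2
    · intro hx
      exact ⟨q.symm ⟨x, hx⟩, by simp [hX]⟩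
  have hmem : u ∈ univ.image X := hXe ▸ hu
  obtain ⟨i, -, hi⟩ := mem_image.1 hmem
  have hers : (univ.erase i).image X = g := by
    have h1 : insert (X i) ((univ.erase i).image X) = e p := by
      rw [← image_insert, insert_erase (mem_univ i), hXe]
    have h2 : X i ∉ (univ.erase i).image X := by
      intro h
      obtain ⟨j, hj, hji⟩ := mem_image.1 h
      exact ne_of_mem_erase hj (hXi hji)
    rw [← erase_insert h2, h1, hi, ← hins, erase_insert hug]
  have h1 : T H e v X0 b m (fun φ => G (g.image φ)) = ∑ y ∈ lab r H, G (fct y i) := by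
    rw [← ht.law hH m hm p hp X hXi hXe (fun y => G (fct y i))]
    refine ht.congr hm fun φ _ => ?_
    show G (g.image φ) = G (fct (φ ∘ X) i)
    rw [fct, ← image_image, hers]
  rw [h1, facet_sum hH i G]

lemma Tr.vsS (ht : Tr r c e v X0) {k : ℕ} (hk1 : 1 ≤ k) (hk : k < c) :
    vs e (k + 1) = insert (v k) (vs e k) ∧ v k ∉ vs e k ∧ (e k).erase (v k) ⊆ vs e k := by
  obtain ⟨p, hp, hsub⟩ := ht.sub k hk1 hk
  have h1 : (e k).erase (v k) ⊆ vs e k := hsub.trans (sub_vs hp)
  refine ⟨?_, ?_, h1⟩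
  · rw [vs_succ]
    ext x
    simp only [mem_union, mem_insert]
    constructor
    · rintro (h | h)
      · by_cases hx : x = v k
        · exact Or.inl hx
        · exact Or.inr (h1 (mem_erase.2 ⟨hx, h⟩))
      · exact Or.inr h
    · rintro (h | h)
      · exact Or.inl (h ▸ ht.mem k hk1 hk)
      · exact Or.inr h
  · intro h
    obtain ⟨j, hj, hvj⟩ := mem_biUnion.1 h
    exact ht.new k hk1 hk j (mem_range.1 hj) hvj

lemma Tr.vsc (ht : Tr r c e v X0) {k : ℕ} (hk1 : 1 ≤ k) (hk : k ≤ c) :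
    (vs e k).card + 1 ≤ r + k := by
  induction k, hk1 using Nat.le_induction with
  | base =>
    have h1 : vs e 1 = e 0 := by simp [vs]
    rw [h1, ht.card 0 (by omega)]
  | succ k hk1 ih =>
    obtain ⟨h1, h2, -⟩ := ht.vsS hk1 (by omega)
    rw [h1, card_insert_of_notMem h2]
    have := ih (by omega)
    omega

/-- the indicator of a collision at the step `k` -/
noncomputable def col (e : ℕ → Finset ℕ) (v : ℕ → ℕ) (k : ℕ) (φ : ℕ → Fin n) : ℚ :=
  if φ (v k) ∈ (vs e k \ (e k).erase (v k)).image φ then 1 else 0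

lemma col_nonneg (k : ℕ) (φ : ℕ → Fin n) : 0 ≤ col e v k φ := by
  unfold col; split_ifs <;> norm_num

lemma Tr.colT (ht : Tr r c e v X0) (hH : ∀ h ∈ H, h.card = r) {k : ℕ} (hk1 : 1 ≤ k) (hk : k < c) :
    (r : ℚ) * T H e v X0 b (c - 1) (col e v k) ≤ k * (r.factorial * (shadow H).card) := by
  obtain ⟨k, rfl⟩ : ∃ k', k = k' + 1 := ⟨k - 1, by omega⟩
  obtain ⟨h1, h2, h3⟩ := ht.vsS hk1 hk
  have hr0 : 0 < r := by rw [← ht.card _ hk]; exact card_pos.2 ⟨_, ht.mem _ hk1 hk⟩
  have hfc : ((e (k + 1)).erase (v (k + 1))).card + 1 = r := by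
    rw [card_erase_of_mem (ht.mem _ hk1 hk), ht.card _ hk]; omega
  rw [ht.indep_le hH (show k + 1 ≤ c - 1 by omega) (by omega)]
  · obtain ⟨p, hp, hsub⟩ := ht.sub _ hk1 hk
    show (r : ℚ) * T H e v X0 b k (stp H ((e (k + 1)).erase (v (k + 1))) (v (k + 1)) _) ≤ _
    have h4 : T H e v X0 b k (stp H ((e (k + 1)).erase (v (k + 1))) (v (k + 1)) (col e v (k + 1)))
        ≤ T H e v X0 b k (fun φ => ((k + 1 : ℕ) : ℚ) *
          (fun f : Finset (Fin n) => (1 : ℚ) / (nb H f).card)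
            (((e (k + 1)).erase (v (k + 1))).image φ)) := by
      refine ht.mono k (by omega) _ _ fun φ hφ => ?_
      unfold stp
      rw [mul_one_div]
      refine div_le_div_of_nonneg_right ?_ (by positivity)
      have h5 : ∀ w ∈ nb H (((e (k + 1)).erase (v (k + 1))).image φ),
          col e v (k + 1) (Function.update φ (v (k + 1)) w) =
          if w ∈ (vs e (k + 1) \ (e (k + 1)).erase (v (k + 1))).image φ then 1 else 0 := by
        intro w _
        unfold col
        rw [Function.update_self, upd_image]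
        intro h
        exact h2 (mem_sdiff.1 h).1
      rw [sum_congr rfl h5, sum_boole]
      have h6 : ((nb H (((e (k + 1)).erase (v (k + 1))).image φ)).filter fun w =>
          w ∈ (vs e (k + 1) \ (e (k + 1)).erase (v (k + 1))).image φ).card ≤ k + 1 := by
        refine (card_le_card (fun w hw => (mem_filter.1 hw).2)).trans (card_image_le.trans ?_)
        rw [card_sdiff_of_subset h3]
        have := ht.vsc hk1 hk.le
        omega
      exact_mod_cast h6
    have h7 := ht.flaw hH (m := k) (p := p) (b := b) (by omega) (by omega) hsub hfc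
      (fun f : Finset (Fin n) => (1 : ℚ) / (nb H f).card)
    have h8 : ∑ f ∈ shadow H, ((nb H f).card : ℚ) * (1 / (nb H f).card) = (shadow H).card := by
      rw [card_eq_sum_ones]
      push_cast
      refine sum_congr rfl fun f hf => ?_
      have : ((nb H f).card : ℚ) ≠ 0 := by
        exact_mod_cast (card_pos.2 (mem_shadow_nb.1 hf)).ne'
      field_simp
    rw [h8] at h7
    rw [T_smul] at h4
    refine (mul_le_mul_of_nonneg_left h4 (by positivity)).trans ?_
    rw [mul_left_comm]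
    exact (congrArg (fun z : ℚ => ((k + 1 : ℕ) : ℚ) * z) h7).le
  · intro j hj1 hj2 φ w
    unfold col
    have h5 : v j ∉ vs e (k + 1 + 1) := by
      intro h
      obtain ⟨l, hl, hvl⟩ := mem_biUnion.1 h
      exact ht.new j (by omega) hj2 l (by have := mem_range.1 hl; omega) hvl
    have h6 : v (k + 1) ≠ v j := by
      intro h
      exact h5 (h ▸ h1 ▸ mem_insert_self _ _)
    rw [Function.update_of_ne h6, upd_image]
    intro h
    exact h5 (h1 ▸ mem_insert_of_mem (mem_sdiff.1 h).1)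

/-- no collisions -/
lemma Tr.injOn (ht : Tr r c e v X0) (hH : ∀ h ∈ H, h.card = r) {φ : ℕ → Fin n}
    (hφ : Hom H e (c - 1) φ) (hcol : ∀ k, 1 ≤ k → k < c → col e v k φ ≠ 1) {k : ℕ} (hk1 : 1 ≤ k)
    (hk : k ≤ c) : Set.InjOn φ (vs e k) := by
  induction k, hk1 using Nat.le_induction with
  | base =>
    have h1 : vs e 1 = e 0 := by simp [vs]
    rw [h1]
    exact hom_inj hH (ht.card 0 (by omega)) (hφ 0 (by omega))
  | succ k hk1 ih =>
    obtain ⟨h1, h2, h3⟩ := ht.vsS hk1 (by omega)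
    have h4 := ih (by omega)
    have h5 : φ (v k) ∉ (vs e k).image φ := by
      intro h
      obtain ⟨x, hx, hxv⟩ := mem_image.1 h
      by_cases hxf : x ∈ (e k).erase (v k)
      · have := hom_inj hH (ht.card k (by omega)) (hφ k (by omega))
          (Finset.mem_coe.2 (mem_of_mem_erase hxf))
          (Finset.mem_coe.2 (ht.mem k hk1 (by omega))) hxv
        exact ne_of_mem_erase hxf this
      · refine hcol k hk1 (by omega) ?_
        unfold col
        rw [if_pos]
        rw [← hxv]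
        exact mem_image_of_mem _ (mem_sdiff.2 ⟨hx, hxf⟩)
    rw [h1, coe_insert]
    intro a ha b hb hab
    rw [Set.mem_insert_iff] at ha hb
    rcases ha with rfl | ha
    · rcases hb with rfl | hb
      · rfl
      · exact absurd (hab ▸ mem_image_of_mem φ (Finset.mem_coe.1 hb)) h5
    · rcases hb with rfl | hb
      · exact absurd (hab ▸ mem_image_of_mem φ (Finset.mem_coe.1 ha)) h5
      · exact h4 ha hb hab

lemma sum_Ico_id (c : ℕ) (hc : 1 ≤ c) : 2 * ∑ k ∈ Ico 1 c, (k : ℚ) = c * (c - 1) := by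
  induction c, hc using Nat.le_induction with
  | base => simp
  | succ c hc ih =>
    rw [sum_Ico_succ_top hc, mul_add, ih]
    push_cast
    ring

/-- a good homomorphism of the trunk -/
lemma Tr.good (ht : Tr r c e v X0) (hH : ∀ h ∈ H, h.card = r) (b : ℕ → Fin n) {t : ℕ}
    (hc : 1 ≤ c) (hct : c ≤ t) (g : ℕ → Finset ℕ)
    (hg : ∀ i, c ≤ i → i < t → (∃ p, p < c ∧ g i ⊆ e p) ∧ (g i).card + 1 = r)
    (hlt : (2 * (t - 1) + (c - 1) * (2 * r + c - 2)) * (shadow H).card < 2 * r * H.card)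
    (hdeg : ∀ f ∈ shadow H, 2 * (t - 1) + (c - 1) * (2 * r + c - 2) < 2 * r * (nb H f).card) :
    ∃ φ : ℕ → Fin n, Hom H e (c - 1) φ ∧ Set.InjOn φ (vs e c) ∧
      ∑ i ∈ Ico c t, (1 : ℚ) / ((nb H ((g i).image φ)).card - c + 1) < 1 := by
  have hr0 : 0 < r := by
    rcases Nat.eq_zero_or_pos r with rfl | h
    · simp at hlt
    · exact h
  obtain ⟨c', rfl⟩ : ∃ c', c = c' + 1 := ⟨c - 1, by omega⟩
  obtain ⟨s, rfl⟩ : ∃ s, t = s + c' + 1 := ⟨t - (c' + 1), by omega⟩
  have hM : ((2 * (s + c' + 1 - 1) + (c' + 1 - 1) * (2 * r + (c' + 1) - 2) : ℕ) : ℚ) =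
      2 * (s + c') + c' * (2 * r + c' - 1) := by
    have h1 : 2 * r + (c' + 1) - 2 = 2 * (r - 1) + c' + 1 := by omega
    have h0 : s + c' + 1 - 1 = s + c' := by omega
    have h0' : c' + 1 - 1 = c' := by omega
    rw [h0, h0', h1]
    push_cast [Nat.cast_sub (show 1 ≤ r by omega)]
    ring
  by_contra hcon
  push Not at hcon
  have hdeg1 : ∀ f ∈ shadow H, 2 * ((s : ℚ) + c') + c' * (2 * r + c' - 1) <
      2 * r * (nb H f).card := by
    intro f hf
    rw [← hM]
    exact_mod_cast hdeg f hf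
  have hr1 : (1 : ℚ) ≤ r := by exact_mod_cast hr0
  have hc0 : (0 : ℚ) ≤ c' := by positivity
  have hs0 : (0 : ℚ) ≤ s := by positivity
  have hpos : ∀ f ∈ shadow H, (0 : ℚ) < (nb H f).card - (c' + 1 : ℕ) + 1 := by
    intro f hf
    have h1 := hdeg1 f hf
    have h2 : (c' : ℚ) < (nb H f).card := by
      by_contra hle
      push Not at hle
      have h3 : 2 * (r : ℚ) * (nb H f).card ≤ 2 * r * c' :=
        mul_le_mul_of_nonneg_left hle (by positivity)
      rcases eq_or_lt_of_le hc0 with h0 | h0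
      · rw [← h0] at h1 h3
        nlinarith
      · have h4 : (1 : ℚ) ≤ c' := by
          have : 0 < c' := by exact_mod_cast h0
          exact_mod_cast this
        nlinarith [mul_nonneg hc0 (sub_nonneg.2 h4)]
    push_cast
    linarith
  -- the facets of the leaf edges
  have hsh : ∀ φ, Hom H e (c' + 1 - 1) φ → ∀ i, c' + 1 ≤ i → i < s + c' + 1 →
      (g i).image φ ∈ shadow H := by
    intro φ hφ i hi1 hi2
    obtain ⟨⟨p, hp, hsub⟩, hgc⟩ := hg i hi1 hi2
    obtain ⟨u, hu, hug, hins⟩ := facet (r := r) hsub hgc (ht.card p hp)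
    rw [mem_shadow_iff_insert_mem]
    refine ⟨φ u, ?_, ?_⟩
    · intro h
      obtain ⟨z, hz, hzu⟩ := mem_image.1 h
      have := hom_inj hH (ht.card p hp) (hφ p (by omega)) (Finset.mem_coe.2 (hsub hz))
        (Finset.mem_coe.2 hu) hzu
      exact hug (this ▸ hz)
    · rw [← image_insert, hins]
      exact hφ p (by omega)
  set L : ℕ → (ℕ → Fin n) → ℚ := fun i φ =>
    (fun f : Finset (Fin n) => (1 : ℚ) / ((nb H f).card - (c' + 1 : ℕ) + 1)) ((g i).image φ)
    with hL
  have hpt : ∀ φ, Hom H e (c' + 1 - 1) φ →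
      (fun _ => (1 : ℚ)) φ ≤ (fun φ => (∑ k ∈ Ico 1 (c' + 1), col e v k φ) +
        ∑ i ∈ Ico (c' + 1) (s + c' + 1), L i φ) φ := by
    intro φ hφ
    have hLn : ∀ i ∈ Ico (c' + 1) (s + c' + 1), 0 ≤ L i φ := by
      intro i hi
      have := hpos _ (hsh φ hφ i (mem_Ico.1 hi).1 (mem_Ico.1 hi).2)
      simp only [hL]
      positivity
    show 1 ≤ (∑ k ∈ Ico 1 (c' + 1), col e v k φ) + ∑ i ∈ Ico (c' + 1) (s + c' + 1), L i φ
    by_cases hinj : Set.InjOn φ (vs e (c' + 1))
    · have h1 := hcon φ hφ hinj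
      have h2 : 0 ≤ ∑ k ∈ Ico 1 (c' + 1), col e v k φ := sum_nonneg fun k _ => col_nonneg k φ
      have h3 : ∑ i ∈ Ico (c' + 1) (s + c' + 1), L i φ =
        ∑ i ∈ Ico (c' + 1) (s + c' + 1),
          (1 : ℚ) / ((nb H ((g i).image φ)).card - (c' + 1 : ℕ) + 1) := rfl
      rw [h3]
      linarith
    · have h1 : ∃ k ∈ Ico 1 (c' + 1), col e v k φ = 1 := by
        by_contra hno
        push Not at hno
        exact hinj (ht.injOn hH hφ (fun k hk1 hk2 => hno k (mem_Ico.2 ⟨hk1, hk2⟩)) hc le_rfl)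
      obtain ⟨k, hk, hk1⟩ := h1
      have h2 : col e v k φ ≤ ∑ k ∈ Ico 1 (c' + 1), col e v k φ :=
        single_le_sum (f := fun k => col e v k φ) (fun k _ => col_nonneg k φ) hk
      have h3 := sum_nonneg hLn
      rw [hk1] at h2
      linarith
  have hT := ht.mono (b := b) (c' + 1 - 1) (by omega) _ _ hpt
  have hT1 : T H e v X0 b (c' + 1 - 1) (fun _ => (1 : ℚ)) = r.factorial * H.card := by
    have h1 := ht.law (b := b) hH (c' + 1 - 1) (by omega) 0 (by omega) X0 ht.inj ht.img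
      (fun _ => (1 : ℚ))
    have h2 := lab_sum hH (fun _ => (1 : ℚ))
    rw [h1, h2]
    simp
  rw [T_add, T_sum, T_sum, hT1] at hT
  have hcolb : ∑ k ∈ Ico 1 (c' + 1), (r : ℚ) * T H e v X0 b (c' + 1 - 1) (col e v k) ≤
      ∑ k ∈ Ico 1 (c' + 1), (k : ℚ) * (r.factorial * (shadow H).card) :=
    sum_le_sum fun k hk => ht.colT hH (mem_Ico.1 hk).1 (mem_Ico.1 hk).2
  have hLb : ∑ i ∈ Ico (c' + 1) (s + c' + 1), (r : ℚ) * T H e v X0 b (c' + 1 - 1) (L i) =
      ∑ i ∈ Ico (c' + 1) (s + c' + 1), r.factorial * ∑ f ∈ shadow H,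
        ((nb H f).card : ℚ) * (1 / ((nb H f).card - (c' + 1 : ℕ) + 1)) := by
    refine sum_congr rfl fun i hi => ?_
    obtain ⟨⟨p, hp, hsub⟩, hgc⟩ := hg i (mem_Ico.1 hi).1 (mem_Ico.1 hi).2
    exact ht.flaw hH (by omega) (by omega) hsub hgc
      (fun f : Finset (Fin n) => (1 : ℚ) / ((nb H f).card - (c' + 1 : ℕ) + 1))
  rw [sum_const, Nat.card_Ico] at hLb
  rw [← sum_mul] at hcolb
  have hids := sum_Ico_id (c' + 1) hc
  have hfac : (0 : ℚ) < r.factorial := by exact_mod_cast r.factorial_pos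
  -- pointwise
  have hpw : ∀ f ∈ shadow H, ((c' : ℚ) + 1) * c' + 2 * (s * (((nb H f).card : ℚ) *
      (1 / ((nb H f).card - (c' + 1 : ℕ) + 1)))) ≤ 2 * (s + c') + c' * (2 * r + c' - 1) := by
    intro f hf
    have h1 := hpos f hf
    have h2 := hdeg1 f hf
    set d : ℚ := ((nb H f).card : ℚ) with hd
    push_cast at h1 ⊢
    have h3 : d - (c' + 1) + 1 = d - c' := by ring
    rw [h3] at h1 ⊢
    have h4 : ((c' : ℚ) + 1) * c' + 2 * (s * (d * (1 / (d - c')))) =
        (((c' : ℚ) + 1) * c' * (d - c') + 2 * s * d) / (d - c') := by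
      field_simp
    rw [h4, div_le_iff₀ h1]
    have h5 : 0 ≤ (c' : ℚ) * (2 * r * d - (2 * (s + c') + c' * (2 * r + c' - 1))) :=
      mul_nonneg hc0 (by linarith)
    have h6 : (0 : ℚ) ≤ c' * (c' * (c' + 1)) := by positivity
    nlinarith
  have hsum : ∑ f ∈ shadow H, (((c' : ℚ) + 1) * c' + 2 * (s * (((nb H f).card : ℚ) *
      (1 / ((nb H f).card - (c' + 1 : ℕ) + 1))))) ≤
      ∑ _f ∈ shadow H, (2 * (s + c') + c' * (2 * r + c' - 1) : ℚ) := sum_le_sum hpw
  rw [sum_add_distrib, sum_const, sum_const, nsmul_eq_mul, nsmul_eq_mul, ← mul_sum, ← mul_sum]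
    at hsum
  have hlt' : (2 * ((s : ℚ) + c') + c' * (2 * r + c' - 1)) * (shadow H).card <
      2 * r * H.card := by
    rw [← hM]
    exact_mod_cast hlt
  set S1 : ℚ := ∑ f ∈ shadow H, ((nb H f).card : ℚ) *
      (1 / ((nb H f).card - (c' + 1 : ℕ) + 1)) with hS1
  have hcard : ((s + c' + 1 - (c' + 1) : ℕ) : ℚ) = s := by
    have : s + c' + 1 - (c' + 1) = s := by omega
    rw [this]
  rw [nsmul_eq_mul, hcard] at hLb
  have h1 : (r : ℚ) * (r.factorial * H.card) ≤
      (∑ k ∈ Ico 1 (c' + 1), (k : ℚ)) * (r.factorial * (shadow H).card) +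
        s * (r.factorial * S1) := by
    calc (r : ℚ) * (r.factorial * H.card) ≤ r * _ := mul_le_mul_of_nonneg_left hT (by positivity)
      _ = _ := mul_add _ _ _
      _ ≤ _ := by
        rw [mul_sum, mul_sum, hLb]
        linarith
  push_cast at hids
  have h2 : (r.factorial : ℚ) * (2 * r * H.card) ≤ r.factorial *
      ((shadow H).card * ((c' + 1) * c') + 2 * (s * S1)) := by
    have h3 : 2 * ∑ k ∈ Ico 1 (c' + 1), (k : ℚ) = (c' + 1) * c' := by rw [hids]; ring
    calc (r.factorial : ℚ) * (2 * r * H.card) = 2 * ((r : ℚ) * (r.factorial * H.card)) := by ring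
      _ ≤ 2 * ((∑ k ∈ Ico 1 (c' + 1), (k : ℚ)) * (r.factorial * (shadow H).card) +
        s * (r.factorial * S1)) := mul_le_mul_of_nonneg_left h1 (by norm_num)
      _ = (2 * ∑ k ∈ Ico 1 (c' + 1), (k : ℚ)) * (r.factorial * (shadow H).card) +
        2 * (s * (r.factorial * S1)) := by ring
      _ = _ := by rw [h3]; ring
  have h3 := le_of_mul_le_mul_left h2 hfac
  linarith

end

end Pool.Agent.TH636.KT
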