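import Pool.Agent.TH636.KT.Walk2

/-!
# A good homomorphism of the trunk: the non-backtracking version
-/

set_option autoImplicit false

namespace Pool.Agent.TH636.KT

open Finset

variable {n r : ℕ}

section

variable {H : Finset (Finset (Fin n))} {c : ℕ} {e : ℕ → Finset ℕ} {u v : ℕ → ℕ} {X0 : Fin r → ℕ}
  {b : ℕ → Fin n}

/-- independence of the later vertices -/
lemma Tr2.indep_le (ht : Tr2 H r c e u v X0) {k m : ℕ} (hkm : k ≤ m)
    (hm : m < c) (Φ : (ℕ → Fin n) → ℚ)
    (hΦ : ∀ j, k < j → j < c → ∀ φ w, Φ (Function.update φ (v j) w) = Φ φ) :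
    T2 H e u v X0 b m Φ = T2 H e u v X0 b k Φ := by
  induction m, hkm using Nat.le_induction with
  | base => rfl
  | succ m hkm ih =>
    rw [ht.indep hm Φ (hΦ (m + 1) (by omega) hm), ih (by omega)]

/-- the marginal law of a facet -/
lemma Tr2.flaw (ht : Tr2 H r c e u v X0) {m p : ℕ} (hm : m < c) (hp : p ≤ m)
    {g : Finset ℕ} (hg : g ⊆ e p) (hgc : g.card + 1 = r) (G : Finset (Fin n) → ℚ) :
    (r : ℚ) * T2 H e u v X0 b m (fun φ => G (g.image φ)) =
      r.factorial * ∑ f ∈ shadow H, (nb H f).card * G f := by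
  obtain ⟨z, hz, hzg, hins⟩ := facet (r := r) hg hgc (ht.tr.card p (by omega))
  set q : Fin r ≃ e p := ((e p).equivFinOfCardEq (ht.tr.card p (by omega))).symm with hq
  set X : Fin r → ℕ := fun i => (q i : ℕ) with hX
  have hXi : Function.Injective X := fun a b hab => q.injective (Subtype.ext hab)
  have hXe : univ.image X = e p := by
    ext x
    simp only [mem_image, mem_univ, true_and]
    constructor
    · rintro ⟨i, rfl⟩
      exact (q i).2
    · intro hx
      exact ⟨q.symm ⟨x, hx⟩, by simp [hX]⟩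
  have hmem : z ∈ univ.image X := hXe ▸ hz
  obtain ⟨i, -, hi⟩ := mem_image.1 hmem
  have hers : (univ.erase i).image X = g := by
    have h1 : insert (X i) ((univ.erase i).image X) = e p := by
      rw [← image_insert, insert_erase (mem_univ i), hXe]
    have h2 : X i ∉ (univ.erase i).image X := by
      intro h
      obtain ⟨j, hj, hji⟩ := mem_image.1 h
      exact ne_of_mem_erase hj (hXi hji)
    rw [← erase_insert h2, h1, hi, ← hins, erase_insert hzg]
  have h1 : T2 H e u v X0 b m (fun φ => G (g.image φ)) = ∑ y ∈ lab r H, G (fct y i) := by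
    rw [← ht.law m hm p hp X hXi hXe (fun y => G (fct y i))]
    refine ht.congr hm fun φ _ => ?_
    show G (g.image φ) = G (fct (φ ∘ X) i)
    rw [fct, ← image_image, hers]
  rw [h1, facet_sum ht.uni i G]

lemma Tr2.colT (ht : Tr2 H r c e u v X0) {k : ℕ} (hk1 : 1 ≤ k) (hk : k < c) :
    (r : ℚ) * T2 H e u v X0 b (c - 1) (col e v k) ≤
      ((k - 1 : ℕ) : ℚ) * (r.factorial * ∑ f ∈ shadow H,
        ((nb H f).card : ℚ) * (1 / ((nb H f).card - 1 : ℕ))) := by
  obtain ⟨k, rfl⟩ : ∃ k', k = k' + 1 := ⟨k - 1, by omega⟩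
  obtain ⟨h1, h2, h3⟩ := ht.tr.vsS hk1 hk
  have hfc := ht.tr.fc hk1 hk
  rw [ht.indep_le (show k + 1 ≤ c - 1 by omega) (by omega), Nat.add_sub_cancel]
  · obtain ⟨p, hp, hup, huf, hins⟩ := ht.old _ hk1 hk
    have hsub : (e (k + 1)).erase (v (k + 1)) ⊆ e p := hins ▸ subset_insert _ _
    show (r : ℚ) * T2 H e u v X0 b k
      (stp2 H ((e (k + 1)).erase (v (k + 1))) (u (k + 1)) (v (k + 1)) _) ≤ _
    have h4 : T2 H e u v X0 b k
          (stp2 H ((e (k + 1)).erase (v (k + 1))) (u (k + 1)) (v (k + 1)) (col e v (k + 1)))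
        ≤ T2 H e u v X0 b k (fun φ => (k : ℚ) *
          (fun f : Finset (Fin n) => (1 : ℚ) / ((nb H f).card - 1 : ℕ))
            (((e (k + 1)).erase (v (k + 1))).image φ)) := by
      refine ht.mono k (by omega) _ _ fun φ hφ => ?_
      unfold stp2
      rw [mul_one_div]
      refine div_le_div_of_nonneg_right ?_ (by positivity)
      have h5 : ∀ w ∈ (nb H (((e (k + 1)).erase (v (k + 1))).image φ)).erase (φ (u (k + 1))),
          col e v (k + 1) (Function.update φ (v (k + 1)) w) =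
          if w ∈ (vs e (k + 1) \ (e (k + 1)).erase (v (k + 1))).image φ then 1 else 0 := by
        intro w _
        unfold col
        rw [Function.update_self, upd_image]
        intro h
        exact h2 (mem_sdiff.1 h).1
      rw [sum_congr rfl h5, sum_boole]
      have h6 : (((nb H (((e (k + 1)).erase (v (k + 1))).image φ)).erase
          (φ (u (k + 1)))).filter fun w =>
          w ∈ (vs e (k + 1) \ (e (k + 1)).erase (v (k + 1))).image φ).card ≤ k := by
        have h7 : (((nb H (((e (k + 1)).erase (v (k + 1))).image φ)).erase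
            (φ (u (k + 1)))).filter fun w =>
            w ∈ (vs e (k + 1) \ (e (k + 1)).erase (v (k + 1))).image φ) ⊆
            ((vs e (k + 1) \ (e (k + 1)).erase (v (k + 1))).erase (u (k + 1))).image φ := by
          intro w hw
          obtain ⟨hw1, hw2⟩ := mem_filter.1 hw
          obtain ⟨x, hx, rfl⟩ := mem_image.1 hw2
          refine mem_image_of_mem _ (mem_erase.2 ⟨?_, hx⟩)
          rintro rfl
          exact ne_of_mem_erase hw1 rfl
        refine (card_le_card h7).trans (card_image_le.trans ?_)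
        rw [card_erase_of_mem (mem_sdiff.2 ⟨sub_vs hp hup, huf⟩), card_sdiff_of_subset h3]
        have := ht.tr.vsc hk1 hk.le
        omega
      exact_mod_cast h6
    have h7 := ht.flaw (m := k) (p := p) (b := b) (by omega) (by omega) hsub hfc
      (fun f : Finset (Fin n) => (1 : ℚ) / ((nb H f).card - 1 : ℕ))
    rw [T2_smul] at h4
    refine (mul_le_mul_of_nonneg_left h4 (by positivity)).trans ?_
    rw [mul_left_comm]
    exact (congrArg (fun z : ℚ => (k : ℚ) * z) h7).le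
  · intro j hj1 hj2 φ w
    unfold col
    have h5 : v j ∉ vs e (k + 1 + 1) := by
      intro h
      obtain ⟨l, hl, hvl⟩ := mem_biUnion.1 h
      exact ht.tr.new j (by omega) hj2 l (by have := mem_range.1 hl; omega) hvl
    have h6 : v (k + 1) ≠ v j := by
      intro h
      exact h5 (h ▸ h1 ▸ mem_insert_self _ _)
    rw [Function.update_of_ne h6, upd_image]
    intro h
    exact h5 (h1 ▸ mem_insert_of_mem (mem_sdiff.1 h).1)

lemma sum_Ico_pred (c : ℕ) (hc : 1 ≤ c) :
    2 * ∑ k ∈ Ico 1 c, ((k - 1 : ℕ) : ℚ) = (c - 1) * (c - 2) := by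
  induction c, hc using Nat.le_induction with
  | base => simp
  | succ c hc ih =>
    rw [sum_Ico_succ_top hc, mul_add, ih, Nat.cast_sub hc]
    push_cast
    ring

/-- the expectation argument -/
lemma Tr2.expect (ht : Tr2 H r c e u v X0) (b : ℕ → Fin n) {t : ℕ}
    (hc : 1 ≤ c) (hct : c ≤ t) (g : ℕ → Finset ℕ)
    (hg : ∀ i, c ≤ i → i < t → (∃ p, p < c ∧ g i ⊆ e p) ∧ (g i).card + 1 = r)
    (W : Finset (Fin n) → ℚ) (hW : ∀ f ∈ shadow H, 0 ≤ W f)
    (hbad : ∀ φ : ℕ → Fin n, Hom H e (c - 1) φ → Set.InjOn φ (vs e c) →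
      1 ≤ ∑ i ∈ Ico c t, W ((g i).image φ)) :
    2 * (r : ℚ) * H.card ≤ ∑ f ∈ shadow H, (((c : ℚ) - 1) * (c - 2) *
      (((nb H f).card : ℚ) * (1 / ((nb H f).card - 1 : ℕ))) +
      2 * (((t : ℚ) - c) * (((nb H f).card : ℚ) * W f))) := by
  set L : ℕ → (ℕ → Fin n) → ℚ := fun i φ => W ((g i).image φ) with hL
  have hpt : ∀ φ, Hom H e (c - 1) φ →
      (fun _ => (1 : ℚ)) φ ≤ (fun φ => (∑ k ∈ Ico 1 c, col e v k φ) +
        ∑ i ∈ Ico c t, L i φ) φ := by
    intro φ hφ
    have hLn : ∀ i ∈ Ico c t, 0 ≤ L i φ := by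
      intro i hi
      have hi' := mem_Ico.1 hi
      obtain ⟨⟨p, hp, hsub⟩, hgc⟩ := hg i hi'.1 hi'.2
      exact hW _ (hom_shadow ht.uni (ht.tr.card p hp) (hφ p (by omega)) hsub hgc)
    show 1 ≤ (∑ k ∈ Ico 1 c, col e v k φ) + ∑ i ∈ Ico c t, L i φ
    by_cases hinj : Set.InjOn φ (vs e c)
    · have h1 := hbad φ hφ hinj
      have h2 : 0 ≤ ∑ k ∈ Ico 1 c, col e v k φ := sum_nonneg fun k _ => col_nonneg k φ
      have h3 : ∑ i ∈ Ico c t, L i φ = ∑ i ∈ Ico c t, W ((g i).image φ) := rfl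
      rw [h3]
      linarith
    · have h1 : ∃ k ∈ Ico 1 c, col e v k φ = 1 := by
        by_contra hno
        push Not at hno
        exact hinj (ht.tr.injOn ht.uni hφ (fun k hk1 hk2 => hno k (mem_Ico.2 ⟨hk1, hk2⟩)) hc le_rfl)
      obtain ⟨k, hk, hk1⟩ := h1
      have h2 : col e v k φ ≤ ∑ k ∈ Ico 1 c, col e v k φ :=
        single_le_sum (f := fun k => col e v k φ) (fun k _ => col_nonneg k φ) hk
      have h3 := sum_nonneg hLn
      rw [hk1] at h2
      linarith
  have hT := ht.mono (b := b) (c - 1) (by omega) _ _ hpt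
  have hT1 : T2 H e u v X0 b (c - 1) (fun _ => (1 : ℚ)) = r.factorial * H.card := by
    have h1 := ht.law (b := b) (c - 1) (by omega) 0 (by omega) X0 ht.tr.inj ht.tr.img
      (fun _ => (1 : ℚ))
    have h2 := lab_sum ht.uni (fun _ => (1 : ℚ))
    rw [h1, h2]
    simp
  rw [T2_add, T2_sum, T2_sum, hT1] at hT
  set Z : ℚ := ∑ f ∈ shadow H, ((nb H f).card : ℚ) * (1 / ((nb H f).card - 1 : ℕ)) with hZ
  set S1 : ℚ := ∑ f ∈ shadow H, ((nb H f).card : ℚ) * W f with hS1
  have hcolb : ∑ k ∈ Ico 1 c, (r : ℚ) * T2 H e u v X0 b (c - 1) (col e v k) ≤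
      ∑ k ∈ Ico 1 c, ((k - 1 : ℕ) : ℚ) * (r.factorial * Z) :=
    sum_le_sum fun k hk => ht.colT (mem_Ico.1 hk).1 (mem_Ico.1 hk).2
  have hLb : ∑ i ∈ Ico c t, (r : ℚ) * T2 H e u v X0 b (c - 1) (L i) =
      ∑ i ∈ Ico c t, r.factorial * S1 := by
    refine sum_congr rfl fun i hi => ?_
    obtain ⟨⟨p, hp, hsub⟩, hgc⟩ := hg i (mem_Ico.1 hi).1 (mem_Ico.1 hi).2
    exact ht.flaw (by omega) (by omega) hsub hgc W
  rw [sum_const, Nat.card_Ico, nsmul_eq_mul, Nat.cast_sub hct] at hLb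
  rw [← sum_mul] at hcolb
  have hids := sum_Ico_pred c hc
  have hfac : (0 : ℚ) < r.factorial := by exact_mod_cast r.factorial_pos
  have h1 : (r : ℚ) * (r.factorial * H.card) ≤
      (∑ k ∈ Ico 1 c, ((k - 1 : ℕ) : ℚ)) * (r.factorial * Z) +
        ((t : ℚ) - c) * (r.factorial * S1) := by
    calc (r : ℚ) * (r.factorial * H.card) ≤ r * _ := mul_le_mul_of_nonneg_left hT (by positivity)
      _ = _ := mul_add _ _ _
      _ ≤ _ := by
        rw [mul_sum, mul_sum, hLb]
        linarith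
  have h2 : (r.factorial : ℚ) * (2 * r * H.card) ≤ r.factorial *
      (((c : ℚ) - 1) * (c - 2) * Z + 2 * (((t : ℚ) - c) * S1)) := by
    calc (r.factorial : ℚ) * (2 * r * H.card) = 2 * ((r : ℚ) * (r.factorial * H.card)) := by ring
      _ ≤ 2 * ((∑ k ∈ Ico 1 c, ((k - 1 : ℕ) : ℚ)) * (r.factorial * Z) +
        ((t : ℚ) - c) * (r.factorial * S1)) := mul_le_mul_of_nonneg_left h1 (by norm_num)
      _ = (2 * ∑ k ∈ Ico 1 c, ((k - 1 : ℕ) : ℚ)) * (r.factorial * Z) +
        2 * (((t : ℚ) - c) * (r.factorial * S1)) := by ring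
      _ = _ := by rw [hids]; ring
  have h3 := le_of_mul_le_mul_left h2 hfac
  rw [sum_add_distrib, ← mul_sum, ← mul_sum, ← mul_sum]
  exact h3

end

end Pool.Agent.TH636.KT
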