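import Mathlib

/-!
# Tight trees with a hub: auxiliary lemmas
-/

set_option autoImplicit false

namespace Pool.Agent.TH636.KT

open Finset

variable {n : ℕ}

/-- the vertices that complete `f` to an edge -/
def nb (H : Finset (Finset (Fin n))) (f : Finset (Fin n)) : Finset (Fin n) :=
  univ.filter fun w => w ∉ f ∧ insert w f ∈ H

lemma mem_nb {H : Finset (Finset (Fin n))} {f : Finset (Fin n)} {w : Fin n} :
    w ∈ nb H f ↔ w ∉ f ∧ insert w f ∈ H := by
  simp [nb]

lemma mem_shadow_nb {H : Finset (Finset (Fin n))} {f : Finset (Fin n)} :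
    f ∈ shadow H ↔ (nb H f).Nonempty := by
  rw [mem_shadow_iff_insert_mem]
  constructor
  · rintro ⟨a, h1, h2⟩
    exact ⟨a, mem_nb.2 ⟨h1, h2⟩⟩
  · rintro ⟨a, ha⟩
    exact ⟨a, (mem_nb.1 ha).1, (mem_nb.1 ha).2⟩

/-- pruning -/
lemma prune (r s : ℕ) : ∀ (m : ℕ) (H : Finset (Finset (Fin n))), H.card = m →
    s * (shadow H).card < r * H.card →
    ∃ H' ⊆ H, s * (shadow H').card < r * H'.card ∧
      ∀ f ∈ shadow H', s < r * (nb H' f).card := by
  intro m
  induction m using Nat.strong_induction_on with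
  | _ m ih =>
    intro H hm hlt
    by_cases hall : ∀ f ∈ shadow H, s < r * (nb H f).card
    · exact ⟨H, Subset.rfl, hlt, hall⟩
    · push Not at hall
      obtain ⟨f, hf, hbad⟩ := hall
      set H2 : Finset (Finset (Fin n)) := H \ (nb H f).image (fun w => insert w f) with hH2
      have hsub : H2 ⊆ H := sdiff_subset
      have hnf : f ∉ shadow H2 := by
        rw [mem_shadow_iff_insert_mem]
        rintro ⟨a, ha, h1⟩
        rw [hH2, mem_sdiff] at h1
        exact h1.2 (mem_image.2 ⟨a, mem_nb.2 ⟨ha, h1.1⟩, rfl⟩)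
      have hsh : shadow H2 ⊆ (shadow H).erase f := by
        intro g hg
        refine mem_erase.2 ⟨?_, shadow_mono hsub hg⟩
        rintro rfl
        exact hnf hg
      have h1 : (shadow H2).card + 1 ≤ (shadow H).card := by
        have := card_le_card hsh
        rw [card_erase_of_mem hf] at this
        have h2 : 0 < (shadow H).card := card_pos.2 ⟨f, hf⟩
        omega
      have h2 : H.card ≤ H2.card + (nb H f).card := by
        have h3 : H ⊆ H2 ∪ (nb H f).image (fun w => insert w f) := by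
          intro g hg
          by_cases hg2 : g ∈ (nb H f).image (fun w => insert w f)
          · exact mem_union_right _ hg2
          · exact mem_union_left _ (mem_sdiff.2 ⟨hg, hg2⟩)
        calc H.card ≤ (H2 ∪ (nb H f).image (fun w => insert w f)).card := card_le_card h3
          _ ≤ H2.card + ((nb H f).image (fun w => insert w f)).card := card_union_le _ _
          _ ≤ H2.card + (nb H f).card := by gcongr; exact card_image_le
      have h3 : H2.card < H.card := by
        refine card_lt_card (Finset.ssubset_iff_subset_ne.2 ⟨hsub, ?_⟩)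
        intro h
        exact hnf (by rw [h]; exact hf)
      have h4 : s * (shadow H2).card < r * H2.card := by
        have h5 : s * ((shadow H2).card + 1) ≤ s * (shadow H).card := Nat.mul_le_mul_left _ h1
        have h6 : r * H.card ≤ r * (H2.card + (nb H f).card) := Nat.mul_le_mul_left _ h2
        rw [mul_add] at h5 h6
        omega
      obtain ⟨H', hH', h7, h8⟩ := ih H2.card (by omega) H2 rfl h4
      exact ⟨H', hH'.trans hsub, h7, h8⟩

/-- double counting -/
lemma double (H : Finset (Finset (Fin n))) :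
    ∑ h ∈ H, ∑ y ∈ h, (1 : ℚ) / (nb H (h.erase y)).card = (shadow H).card := by
  have h1 : ((shadow H).card : ℚ) = ∑ f ∈ shadow H, ∑ _w ∈ nb H f, (1 : ℚ) / (nb H f).card := by
    rw [card_eq_sum_ones]
    push_cast
    refine sum_congr rfl fun f hf => ?_
    rw [sum_const, nsmul_eq_mul]
    have : ((nb H f).card : ℚ) ≠ 0 := by
      exact_mod_cast (card_pos.2 (mem_shadow_nb.1 hf)).ne'
    field_simp
  rw [h1, sum_sigma', sum_sigma']
  refine sum_bij' (fun p _ => ⟨p.1.erase p.2, p.2⟩) (fun p _ => ⟨insert p.2 p.1, p.2⟩) ?_ ?_ ?_ ?_ ?_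
  · rintro ⟨h, y⟩ hp
    rw [mem_sigma] at hp ⊢
    simp only at hp ⊢
    have h2 : y ∈ nb H (h.erase y) := mem_nb.2 ⟨notMem_erase y h, by
      rw [insert_erase hp.2]; exact hp.1⟩
    exact ⟨mem_shadow_nb.2 ⟨y, h2⟩, h2⟩
  · rintro ⟨f, w⟩ hp
    rw [mem_sigma] at hp ⊢
    simp only at hp ⊢
    exact ⟨(mem_nb.1 hp.2).2, mem_insert_self _ _⟩
  · rintro ⟨h, y⟩ hp
    rw [mem_sigma] at hp
    simp only at hp ⊢
    rw [insert_erase hp.2]
  · rintro ⟨f, w⟩ hp
    rw [mem_sigma] at hp
    simp only at hp ⊢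
    rw [erase_insert (mem_nb.1 hp.2).1]
  · rintro ⟨h, y⟩ hp
    rfl

/-- there is an edge of small weight -/
lemma exists_good {r s : ℕ} {H : Finset (Finset (Fin n))} (hlt : s * (shadow H).card < r * H.card) :
    ∃ h ∈ H, (s : ℚ) * ∑ y ∈ h, (1 : ℚ) / (nb H (h.erase y)).card < r := by
  by_contra hcon
  push Not at hcon
  have h1 : ∑ _h ∈ H, (r : ℚ) ≤ ∑ h ∈ H, (s : ℚ) * ∑ y ∈ h, (1 : ℚ) / (nb H (h.erase y)).card :=
    sum_le_sum fun h hh => hcon h hh
  rw [sum_const, nsmul_eq_mul, ← mul_sum, double] at h1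
  have h2 : ((s * (shadow H).card : ℕ) : ℚ) < ((r * H.card : ℕ) : ℚ) := by exact_mod_cast hlt
  push_cast at h2
  linarith [mul_comm (r : ℚ) (H.card : ℚ)]

/-- the facets of an edge of small weight, in the order of their degrees -/
lemma exists_sorted {r s : ℕ} {H : Finset (Finset (Fin n))} {h : Finset (Fin n)} (hh : h ∈ H)
    (hr : h.card = r) (hw : (s : ℚ) * ∑ y ∈ h, (1 : ℚ) / (nb H (h.erase y)).card < r) :
    ∃ y : Fin r → Fin n, Function.Injective y ∧ univ.image y = h ∧
      ∀ j : Fin r, (j.1 + 1) * s < r * (nb H (h.erase (y j))).card := by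
  classical
  set g : Fin r ≃ h := (h.equivFinOfCardEq hr).symm with hg
  set d : Fin r → ℕ := fun k => (nb H (h.erase (g k : Fin n))).card with hd
  set y : Fin r → Fin n := fun k => (g (Tuple.sort d k) : Fin n) with hy
  have hinj : Function.Injective y := by
    intro a b hab
    exact (Tuple.sort d).injective (g.injective (Subtype.ext hab))
  have himg : univ.image y = h := by
    ext x
    simp only [mem_image, mem_univ, true_and]
    constructor
    · rintro ⟨k, rfl⟩
      exact (g (Tuple.sort d k)).2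
    · intro hx
      refine ⟨(Tuple.sort d).symm (g.symm ⟨x, hx⟩), ?_⟩
      simp [hy]
  refine ⟨y, hinj, himg, fun j => ?_⟩
  have hmono : Monotone (d ∘ Tuple.sort d) := Tuple.monotone_sort d
  have hdy : ∀ k, (nb H (h.erase (y k))).card = (d ∘ Tuple.sort d) k := fun k => rfl
  have hpos : ∀ k, 0 < (nb H (h.erase (y k))).card := by
    intro k
    refine card_pos.2 ⟨y k, mem_nb.2 ⟨notMem_erase _ _, ?_⟩⟩
    rw [insert_erase (by rw [← himg]; exact mem_image_of_mem _ (mem_univ _))]
    exact hh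
  have hsum : ∑ y ∈ h, (1 : ℚ) / (nb H (h.erase y)).card =
      ∑ k : Fin r, (1 : ℚ) / (nb H (h.erase (y k))).card := by
    conv_lhs => rw [← himg]
    rw [sum_image fun a _ b _ hab => hinj hab]
    rw [himg]
  have hle : ((j.1 + 1 : ℕ) : ℚ) / (nb H (h.erase (y j))).card ≤
      ∑ k : Fin r, (1 : ℚ) / (nb H (h.erase (y k))).card := by
    have h1 : ∑ k ∈ univ.filter (fun k : Fin r => k ≤ j), (1 : ℚ) / (nb H (h.erase (y j))).card ≤
        ∑ k ∈ univ.filter (fun k : Fin r => k ≤ j), (1 : ℚ) / (nb H (h.erase (y k))).card := by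
      refine sum_le_sum fun k hk => ?_
      have hkj : k ≤ j := (mem_filter.1 hk).2
      have h2 : (nb H (h.erase (y k))).card ≤ (nb H (h.erase (y j))).card := by
        rw [hdy, hdy]; exact hmono hkj
      have h3 : (0 : ℚ) < (nb H (h.erase (y k))).card := by exact_mod_cast hpos k
      exact one_div_le_one_div_of_le h3 (by exact_mod_cast h2)
    have h4 : ∑ k ∈ univ.filter (fun k : Fin r => k ≤ j), (1 : ℚ) / (nb H (h.erase (y k))).card ≤
        ∑ k : Fin r, (1 : ℚ) / (nb H (h.erase (y k))).card :=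
      sum_le_sum_of_subset_of_nonneg (filter_subset _ _) fun _ _ _ => by positivity
    rw [sum_const, nsmul_eq_mul] at h1
    have h5 : (univ.filter (fun k : Fin r => k ≤ j)).card = j.1 + 1 := by
      have : univ.filter (fun k : Fin r => k ≤ j) = Iic j := by ext k; simp
      rw [this, Fin.card_Iic]
    rw [h5] at h1
    calc ((j.1 + 1 : ℕ) : ℚ) / (nb H (h.erase (y j))).card
        = ((j.1 + 1 : ℕ) : ℚ) * (1 / (nb H (h.erase (y j))).card) := by ring
      _ ≤ _ := h1.trans h4
  have hdj : (0 : ℚ) < (nb H (h.erase (y j))).card := by exact_mod_cast hpos j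
  have h6 : (s : ℚ) * (((j.1 + 1 : ℕ) : ℚ) / (nb H (h.erase (y j))).card) < r := by
    refine lt_of_le_of_lt ?_ hw
    rw [hsum]
    exact mul_le_mul_of_nonneg_left hle (by positivity)
  have h7 : (s : ℚ) * ((j.1 + 1 : ℕ) : ℚ) < r * (nb H (h.erase (y j))).card := by
    rw [← mul_div_assoc, div_lt_iff₀ hdj] at h6
    exact h6
  have h8 : (((j.1 + 1) * s : ℕ) : ℚ) < ((r * (nb H (h.erase (y j))).card : ℕ) : ℚ) := by
    push_cast at h7 ⊢
    linarith [mul_comm (s : ℚ) ((j.1 : ℚ) + 1)]
  exact_mod_cast h8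

end Pool.Agent.TH636.KT
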