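import Pool.Agent.TH636.KT.Emb

/-!
# Tight trees with a hub: the theorem
-/

set_option autoImplicit false

namespace Pool.Agent.TH636.KT

open Finset

variable {n : ℕ}

theorem hub (r t c : ℕ) (hr : 2 ≤ r) (hc : 1 ≤ c) (hct : c ≤ t) (e : ℕ → Finset ℕ)
    (hcard : ∀ i, i < t → (e i).card = r)
    (htight : ∀ i, 0 < i → i < t →
      ∃ v ∈ e i, (∀ j, j < i → v ∉ e j) ∧ ∃ j, j < i ∧ e i \ {v} ⊆ e j)
    (hleaf : ∀ i, c ≤ i → i < t → ∃ v ∈ e i, (∀ j, j < i → v ∉ e j) ∧ e i \ {v} ⊆ e 0)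
    (X : Fin r → ℕ) (hX : Function.Injective X) (hXe : ∀ k, X k ∈ e 0)
    (hload : ∀ j : Fin r, r * ((∑ k with k ≤ j, ((Ico c t).filter fun i => X k ∉ e i).card) +
      (c - 1)) ≤ (j.1 + 1) * (t - 1))
    (H : Finset (Finset (Fin n))) (huni : ∀ h ∈ H, h.card = r)
    (hno : ¬ ∃ f : ℕ → Fin n, Set.InjOn f {x : ℕ | ∃ i, i < t ∧ x ∈ e i} ∧
      ∀ i, i < t → (e i).image f ∈ H) :
    r * H.card ≤ (t - 1) * (shadow H).card := by
  classical
  by_contra hcon
  push Not at hcon
  obtain ⟨H', hH', hlt, hdeg⟩ := prune r (t - 1) H.card H rfl hcon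
  obtain ⟨h, hh, hw⟩ := exists_good hlt
  obtain ⟨y, hy, hyh, hd⟩ := exists_sorted hh (huni h (hH' hh)) hw
  have hr0 : 0 < r := by omega
  -- the first edge
  have he0 : univ.image X = e 0 := by
    refine eq_of_subset_of_card_le ?_ ?_
    · intro x hx
      obtain ⟨k, -, rfl⟩ := mem_image.1 hx
      exact hXe k
    · rw [hcard 0 (by omega), card_image_of_injective _ hX, card_univ, Fintype.card_fin]
  set φ0 : ℕ → Fin n := Function.extend X y (fun _ => y ⟨0, hr0⟩) with hφ0d
  have hφ0X : ∀ k, φ0 (X k) = y k := fun k => hX.extend_apply _ _ k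
  have hφ0 : Set.InjOn φ0 (e 0) := by
    intro a ha b hb hab
    rw [← he0] at ha hb
    obtain ⟨k, -, rfl⟩ := mem_image.1 (Finset.mem_coe.1 ha)
    obtain ⟨l, -, rfl⟩ := mem_image.1 (Finset.mem_coe.1 hb)
    rw [hφ0X, hφ0X] at hab
    rw [hy hab]
  have him0 : (e 0).image φ0 = h := by
    rw [← he0, image_image, ← hyh]
    exact image_congr fun k _ => hφ0X k
  have hdeg' : ∀ f ∈ shadow H', c ≤ (nb H' f).card := by
    intro f hf
    have h1 := hdeg f hf
    have h2 := hload ⟨0, hr0⟩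
    have h3 : r * (c - 1) ≤ t - 1 := by
      refine le_trans (Nat.mul_le_mul_left _ (Nat.le_add_left _ _)) (h2.trans ?_)
      simp
    have h4 : c - 1 < (nb H' f).card := Nat.lt_of_mul_lt_mul_left (h3.trans_lt h1)
    omega
  obtain ⟨φ, hφ1, hφ2, hφ3, hφ4⟩ := trunk (c := c) (by omega) (fun i hi => hcard i (by omega))
    (fun i hi hic => htight i hi (by omega)) hdeg' φ0 hφ0 (by rw [him0]; exact hh) c hc le_rfl
  have hφX : ∀ k, φ (X k) = y k := fun k => by rw [hφ1 _ (hXe k), hφ0X]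
  have hV0 : e 0 ⊆ vs e c := sub_vs (by omega)
  have him : (e 0).image φ = h := by
    rw [← him0]
    exact image_congr fun x hx => hφ1 x (Finset.mem_coe.1 hx)
  -- facets of the first edge
  have hfac : ∀ k, ((e 0).erase (X k)).image φ = h.erase (y k) := by
    intro k
    have h1 : y k ∉ ((e 0).erase (X k)).image φ := by
      intro hmem
      obtain ⟨z, hz, hzy⟩ := mem_image.1 hmem
      rw [← hφX k] at hzy
      have := hφ2 (Finset.mem_coe.2 (hV0 (mem_of_mem_erase hz))) (Finset.mem_coe.2 (hV0 (hXe k))) hzy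
      exact ne_of_mem_erase hz this
    have h2 : insert (y k) (((e 0).erase (X k)).image φ) = h := by
      rw [← hφX k, ← image_insert, insert_erase (hXe k), him]
    rw [← h2, erase_insert h1]
  -- the leaves
  have hleaf' : ∀ i, ∃ (v : ℕ) (k : Fin r), c ≤ i → i < t →
      (v ∈ e i ∧ (∀ j, j < i → v ∉ e j) ∧ X k ∉ e i ∧ insert v ((e 0).erase (X k)) = e i) := by
    intro i
    by_cases hi : c ≤ i ∧ i < t
    · obtain ⟨v, hv, hnew, hsub⟩ := hleaf i hi.1 hi.2
      have hv0 : v ∉ e 0 := hnew 0 (by omega)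
      have hex : ∃ x ∈ e 0, x ∉ e i := by
        by_contra hall
        push Not at hall
        have h1 : e 0 = e i := eq_of_subset_of_card_le hall (by
          rw [hcard 0 (by omega), hcard i hi.2])
        exact hv0 (h1 ▸ hv)
      obtain ⟨x, hx, hxi⟩ := hex
      rw [← he0] at hx
      obtain ⟨k, -, rfl⟩ := mem_image.1 hx
      refine ⟨v, k, fun _ _ => ⟨hv, hnew, hxi, ?_⟩⟩
      have h2 : e i \ {v} = (e 0).erase (X k) := by
        refine eq_of_subset_of_card_le ?_ ?_
        · intro z hz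
          refine mem_erase.2 ⟨?_, hsub hz⟩
          rintro rfl
          exact hxi (mem_sdiff.1 hz).1
        · rw [card_erase_of_mem (hXe k), sdiff_singleton_eq_erase, card_erase_of_mem hv,
            hcard 0 (by omega), hcard i hi.2]
      rw [← h2, sdiff_singleton_eq_erase, insert_erase hv]
    · exact ⟨0, ⟨0, hr0⟩, fun h1 h2 => absurd ⟨h1, h2⟩ hi⟩
  choose v k hvk using hleaf'
  have hvV : ∀ i, c ≤ i → i < t → v i ∉ vs e c := by
    intro i h1 h2 hmem
    obtain ⟨j, hj, hvj⟩ := mem_biUnion.1 hmem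
    exact (hvk i h1 h2).2.1 j (lt_of_lt_of_le (mem_range.1 hj) h1) hvj
  have hvinj : ∀ i j, c ≤ i → i < t → c ≤ j → j < t → v i = v j → i = j := by
    intro i j hi1 hi2 hj1 hj2 hij
    rcases lt_trichotomy i j with h1 | h1 | h1
    · exact absurd (hij ▸ (hvk i hi1 hi2).1) ((hvk j hj1 hj2).2.1 i h1)
    · exact h1
    · exact absurd (hij ▸ (hvk j hj1 hj2).1) ((hvk i hi1 hi2).2.1 j h1)
  -- Hall
  set N : {i // i ∈ Ico c t} → Finset (Fin n) :=
    fun i => nb H' (h.erase (y (k i.1))) \ (vs e c).image φ with hN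
  have hNc : ∀ i : {i // i ∈ Ico c t},
      (∑ l with l ≤ k i.1, ((Ico c t).filter fun i => X l ∉ e i).card) ≤ (N i).card := by
    intro i
    have h1 := used (H := H') (φ := φ) ((erase_subset (X (k i.1)) (e 0)).trans hV0)
    rw [hfac, card_erase_of_mem (hXe _), hcard 0 (by omega)] at h1
    have h2 := card_sdiff_add_card_inter (nb H' (h.erase (y (k i.1)))) ((vs e c).image φ)
    have h3 : (N i).card = (nb H' (h.erase (y (k i.1))) \ (vs e c).image φ).card := rfl
    have h4 := hd (k i.1)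
    have h5 := hload (k i.1)
    have h6 := Nat.lt_of_mul_lt_mul_left (h5.trans_lt h4)
    omega
  have hall : ∀ s : Finset {i // i ∈ Ico c t}, s.card ≤ (s.biUnion N).card := by
    intro s
    rcases s.eq_empty_or_nonempty with rfl | hs
    · simp
    · obtain ⟨i, his, himax⟩ := exists_max_image s (fun i => k i.1) hs
      have h1 : s.map (Function.Embedding.subtype _) ⊆
          (univ.filter fun l => l ≤ k i.1).biUnion fun l => (Ico c t).filter fun i => X l ∉ e i := by
        intro a ha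
        rw [mem_map] at ha
        obtain ⟨b, hb, rfl⟩ := ha
        have hb2 := mem_Ico.1 b.2
        refine mem_biUnion.2 ⟨k b.1, mem_filter.2 ⟨mem_univ _, himax b hb⟩, ?_⟩
        exact mem_filter.2 ⟨b.2, (hvk b.1 hb2.1 hb2.2).2.2.1⟩
      calc s.card = (s.map (Function.Embedding.subtype _)).card := (card_map _).symm
        _ ≤ _ := card_le_card h1
        _ ≤ ∑ l with l ≤ k i.1, ((Ico c t).filter fun i => X l ∉ e i).card := card_biUnion_le
        _ ≤ (N i).card := hNc i
        _ ≤ (s.biUnion N).card := card_le_card (subset_biUnion_of_mem N his)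
  obtain ⟨w, hwinj, hwN⟩ := (all_card_le_biUnion_card_iff_exists_injective N).1 hall
  -- the copy
  set F : ℕ → Fin n := fun x => if hx : ∃ i, ∃ hi : i ∈ Ico c t, x = v i then
    w ⟨hx.choose, hx.choose_spec.choose⟩ else φ x with hF
  have hF1 : ∀ x ∈ vs e c, F x = φ x := by
    intro x hx
    have : ¬ ∃ i, ∃ hi : i ∈ Ico c t, x = v i := by
      rintro ⟨i, hi, rfl⟩
      exact hvV i (mem_Ico.1 hi).1 (mem_Ico.1 hi).2 hx
    simp only [hF, dif_neg this]
  have hF2 : ∀ i (hi : i ∈ Ico c t), F (v i) = w ⟨i, hi⟩ := by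
    intro i hi
    have hx : ∃ i', ∃ hi : i' ∈ Ico c t, v i = v i' := ⟨i, hi, rfl⟩
    simp only [hF, dif_pos hx]
    congr 1
    refine Subtype.ext ?_
    have h1 := hx.choose_spec.choose
    have h2 := hx.choose_spec.choose_spec
    exact (hvinj _ _ (mem_Ico.1 hi).1 (mem_Ico.1 hi).2 (mem_Ico.1 h1).1 (mem_Ico.1 h1).2 h2).symm
  have hdich : ∀ x, (∃ i, i < t ∧ x ∈ e i) → x ∈ vs e c ∨ ∃ i, ∃ _hi : i ∈ Ico c t, x = v i := by
    rintro x ⟨i, hi, hx⟩
    by_cases hic : i < c
    · exact Or.inl (sub_vs hic hx)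
    · have hic' : c ≤ i := not_lt.1 hic
      have h1 := (hvk i hic' hi).2.2.2
      rw [← h1, mem_insert] at hx
      rcases hx with rfl | hx
      · exact Or.inr ⟨i, mem_Ico.2 ⟨hic', hi⟩, rfl⟩
      · exact Or.inl (hV0 (mem_of_mem_erase hx))
  have hwV : ∀ i, w i ∉ (vs e c).image φ := fun i => (mem_sdiff.1 (hwN i)).2
  refine hno ⟨F, ?_, ?_⟩
  · intro a ha b hb hab
    rcases hdich a ha with ha | ⟨i, hi, rfl⟩
    · rcases hdich b hb with hb | ⟨j, hj, rfl⟩
      · rw [hF1 a ha, hF1 b hb] at hab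
        exact hφ2 (Finset.mem_coe.2 ha) (Finset.mem_coe.2 hb) hab
      · rw [hF1 a ha, hF2 j hj] at hab
        exact absurd (hab ▸ mem_image_of_mem φ ha) (hwV _)
    · rcases hdich b hb with hb | ⟨j, hj, rfl⟩
      · rw [hF1 b hb, hF2 i hi] at hab
        exact absurd (hab ▸ mem_image_of_mem φ hb) (hwV _)
      · rw [hF2 i hi, hF2 j hj] at hab
        have := congrArg Subtype.val (hwinj hab)
        exact congrArg v this
  · intro i hi
    by_cases hic : i < c
    · have h1 : (e i).image F = (e i).image φ :=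
        image_congr fun x hx => hF1 x (sub_vs hic (Finset.mem_coe.1 hx))
      rw [h1]
      exact hH' (hφ3 i hic)
    · have hic' : c ≤ i := not_lt.1 hic
      have hi' : i ∈ Ico c t := mem_Ico.2 ⟨hic', hi⟩
      have h1 := (hvk i hic' hi).2.2.2
      have h2 : ((e 0).erase (X (k i))).image F = h.erase (y (k i)) := by
        rw [← hfac]
        exact image_congr fun x hx => hF1 x (hV0 (mem_of_mem_erase (Finset.mem_coe.1 hx)))
      rw [← h1, image_insert, h2, hF2 i hi']
      exact hH' (mem_nb.1 (mem_sdiff.1 (hwN ⟨i, hi'⟩)).1).2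

end Pool.Agent.TH636.KT
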