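import Pool.Agent.TH636.KT.Emb

/-!
# The stationary random homomorphism of a tight tree
-/

set_option autoImplicit false

namespace Pool.Agent.TH636.KT

open Finset

variable {n r : ℕ}

/-- labelled edges -/
def lab (r : ℕ) (H : Finset (Finset (Fin n))) : Finset (Fin r → Fin n) :=
  univ.filter fun y => univ.image y ∈ H

/-- the facet opposite to the vertex with the label `i` -/
def fct (y : Fin r → Fin n) (i : Fin r) : Finset (Fin n) := (univ.erase i).image y

lemma mem_lab {H : Finset (Finset (Fin n))} {y : Fin r → Fin n} :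
    y ∈ lab r H ↔ univ.image y ∈ H := by simp [lab]

lemma lab_inj {H : Finset (Finset (Fin n))} (hH : ∀ h ∈ H, h.card = r) {y : Fin r → Fin n}
    (hy : y ∈ lab r H) : Function.Injective y := by
  have h1 := hH _ (mem_lab.1 hy)
  have h2 : (univ.image y).card = (univ : Finset (Fin r)).card := by
    rw [h1, card_univ, Fintype.card_fin]
  exact fun a b hab => (card_image_iff.1 h2) (by simp) (by simp) hab

lemma insert_fct (y : Fin r → Fin n) (i : Fin r) : insert (y i) (fct y i) = univ.image y := by
  rw [fct, ← image_insert, insert_erase (mem_univ i)]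

lemma notMem_fct {y : Fin r → Fin n} (hy : Function.Injective y) (i : Fin r) : y i ∉ fct y i := by
  rw [fct, mem_image]
  rintro ⟨j, hj, hij⟩
  exact ne_of_mem_erase hj (hy hij)

lemma fct_update (y : Fin r → Fin n) (i : Fin r) (w : Fin n) :
    fct (Function.update y i w) i = fct y i := by
  refine image_congr fun j hj => ?_
  exact Function.update_of_ne (ne_of_mem_erase (Finset.mem_coe.1 hj)) _ _

lemma mem_nb_fct {H : Finset (Finset (Fin n))} (hH : ∀ h ∈ H, h.card = r) {y : Fin r → Fin n}
    (hy : y ∈ lab r H) (i : Fin r) : y i ∈ nb H (fct y i) :=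
  mem_nb.2 ⟨notMem_fct (lab_inj hH hy) i, by rw [insert_fct]; exact mem_lab.1 hy⟩

/-- replacing the vertex with the label `i` preserves the uniform distribution -/
lemma swap_sum {H : Finset (Finset (Fin n))} (hH : ∀ h ∈ H, h.card = r) (i : Fin r)
    (G : (Fin r → Fin n) → ℚ) :
    ∑ y ∈ lab r H, (∑ w ∈ nb H (fct y i), G (Function.update y i w)) / (nb H (fct y i)).card =
      ∑ y ∈ lab r H, G y := by
  have h1 : ∀ y ∈ lab r H, G y = ∑ _w ∈ nb H (fct y i), G y / (nb H (fct y i)).card := by
    intro y hy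
    have h2 : ((nb H (fct y i)).card : ℚ) ≠ 0 := by
      exact_mod_cast (card_pos.2 ⟨_, mem_nb_fct hH hy i⟩).ne'
    rw [sum_const, nsmul_eq_mul]
    field_simp
  rw [sum_congr rfl h1]
  simp only [sum_div]
  rw [sum_sigma', sum_sigma']
  have key : ∀ y ∈ lab r H, ∀ w ∈ nb H (fct y i), Function.update y i w ∈ lab r H ∧
      y i ∈ nb H (fct (Function.update y i w) i) := by
    intro y hy w hw
    rw [fct_update]
    refine ⟨mem_lab.2 ?_, mem_nb_fct hH hy i⟩
    rw [← insert_fct _ i, fct_update, Function.update_self]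
    exact (mem_nb.1 hw).2
  refine sum_bij' (fun p _ => ⟨Function.update p.1 i p.2, p.1 i⟩)
    (fun p _ => ⟨Function.update p.1 i p.2, p.1 i⟩) ?_ ?_ ?_ ?_ ?_
  · rintro ⟨y, w⟩ hp
    rw [mem_sigma] at hp ⊢
    exact key y hp.1 w hp.2
  · rintro ⟨y, w⟩ hp
    rw [mem_sigma] at hp ⊢
    exact key y hp.1 w hp.2
  · rintro ⟨y, w⟩ hp
    simp
  · rintro ⟨y, w⟩ hp
    simp
  · rintro ⟨y, w⟩ hp
    simp only [fct_update]

lemma perm_sum (H : Finset (Finset (Fin n))) (π : Equiv.Perm (Fin r)) (G : (Fin r → Fin n) → ℚ) :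
    ∑ y ∈ lab r H, G (y ∘ π) = ∑ y ∈ lab r H, G y := by
  have him : ∀ (y : Fin r → Fin n) (π : Equiv.Perm (Fin r)), univ.image (y ∘ π) = univ.image y := by
    intro y π
    rw [← image_image, image_univ_equiv]
  refine sum_bij' (fun y _ => y ∘ π) (fun y _ => y ∘ π.symm) ?_ ?_ ?_ ?_ ?_
  · intro y hy
    rw [mem_lab, him]; exact mem_lab.1 hy
  · intro y hy
    rw [mem_lab, him]; exact mem_lab.1 hy
  · intro y _
    funext i; simp
  · intro y _
    funext i; simp
  · intro y _
    rfl

/-- the number of labellings of an edge -/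
lemma count {h : Finset (Fin n)} (hr : h.card = r) :
    (univ.filter fun y : Fin r → Fin n => univ.image y = h).card = r.factorial := by
  classical
  set g : Fin r ≃ h := (h.equivFinOfCardEq hr).symm with hg
  have h1 : (univ.filter fun y : Fin r → Fin n => univ.image y = h) =
      univ.image (fun (π : Equiv.Perm (Fin r)) => fun i => (g (π i) : Fin n)) := by
    ext y
    simp only [mem_filter, mem_univ, true_and, mem_image]
    constructor
    · intro hy
      have hmem : ∀ i, y i ∈ h := fun i => hy ▸ mem_image_of_mem y (mem_univ i)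
      have hinj : Function.Injective y := by
        have h2 : (univ.image y).card = (univ : Finset (Fin r)).card := by
          rw [hy, hr, card_univ, Fintype.card_fin]
        exact fun a b hab => (card_image_iff.1 h2) (by simp) (by simp) hab
      have hb : Function.Bijective (fun i => g.symm ⟨y i, hmem i⟩) := by
        refine (Fintype.bijective_iff_injective_and_card _).2 ⟨?_, rfl⟩
        intro a b hab
        have := g.symm.injective hab
        exact hinj (congrArg Subtype.val this)
      refine ⟨Equiv.ofBijective _ hb, ?_⟩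
      funext i
      simp
    · rintro ⟨π, rfl⟩
      ext x
      simp only [mem_image, mem_univ, true_and]
      constructor
      · rintro ⟨i, rfl⟩
        exact (g (π i)).2
      · intro hx
        exact ⟨π.symm (g.symm ⟨x, hx⟩), by simp⟩
  rw [h1, card_image_of_injective, card_univ, Fintype.card_perm, Fintype.card_fin]
  intro π π' hππ
  ext i
  have h2 := congrFun hππ i
  have h3 : g (π i) = g (π' i) := Subtype.ext h2
  rw [g.injective h3]

lemma lab_sum {H : Finset (Finset (Fin n))} (hH : ∀ h ∈ H, h.card = r)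
    (F : Finset (Fin n) → ℚ) :
    ∑ y ∈ lab r H, F (univ.image y) = r.factorial * ∑ h ∈ H, F h := by
  rw [← sum_fiberwise_of_maps_to (s := lab r H) (t := H) (g := fun y => univ.image y)
    (fun y hy => mem_lab.1 hy), mul_sum]
  refine sum_congr rfl fun h hh => ?_
  have h1 : (lab r H).filter (fun y => univ.image y = h) =
      univ.filter fun y : Fin r → Fin n => univ.image y = h := by
    ext y
    simp only [mem_filter, mem_univ, true_and, mem_lab]
    constructor
    · exact fun h => h.2
    · exact fun h2 => ⟨h2 ▸ hh, h2⟩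
  rw [sum_congr rfl (g := fun _ => F h) (fun y hy => by rw [(mem_filter.1 hy).2]), sum_const, h1,
    count (hH h hh), nsmul_eq_mul]

lemma facet_sum {H : Finset (Finset (Fin n))} (hH : ∀ h ∈ H, h.card = r) (i : Fin r)
    (G : Finset (Fin n) → ℚ) :
    (r : ℚ) * ∑ y ∈ lab r H, G (fct y i) =
      r.factorial * ∑ f ∈ shadow H, (nb H f).card * G f := by
  have h1 : ∀ j : Fin r, ∑ y ∈ lab r H, G (fct y j) = ∑ y ∈ lab r H, G (fct y i) := by
    intro j
    rw [← perm_sum H (Equiv.swap i j) (fun y => G (fct y i))]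
    refine sum_congr rfl fun y _ => ?_
    congr 1
    unfold fct
    rw [← image_image]
    congr 1
    ext k
    simp only [mem_erase, mem_univ, and_true, mem_image]
    constructor
    · intro hk
      refine ⟨Equiv.swap i j k, ?_, by rw [Equiv.swap_apply_self]⟩
      intro h
      apply hk
      have h5 := congrArg (Equiv.swap i j) h
      rw [Equiv.swap_apply_self, Equiv.swap_apply_left] at h5
      exact h5
    · rintro ⟨l, hl, rfl⟩ h
      apply hl
      have h5 := congrArg (Equiv.swap i j) h
      rw [Equiv.swap_apply_self, Equiv.swap_apply_right] at h5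
      exact h5
  have h2 : (r : ℚ) * ∑ y ∈ lab r H, G (fct y i) = ∑ j : Fin r, ∑ y ∈ lab r H, G (fct y j) := by
    rw [sum_congr rfl (fun j _ => h1 j), sum_const, card_univ, Fintype.card_fin, nsmul_eq_mul]
  rw [h2, sum_comm]
  have h3 : ∀ y ∈ lab r H, ∑ j : Fin r, G (fct y j) =
      (fun h : Finset (Fin n) => ∑ x ∈ h, G (h.erase x)) (univ.image y) := by
    intro y hy
    have hinj := lab_inj hH hy
    show _ = ∑ x ∈ univ.image y, G ((univ.image y).erase x)
    rw [sum_image fun a _ b _ hab => hinj hab]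
    refine sum_congr rfl fun j _ => ?_
    rw [← insert_fct y j, erase_insert (notMem_fct hinj j)]
  rw [(sum_congr rfl h3).trans (lab_sum hH (fun h => ∑ x ∈ h, G (h.erase x)))]
  congr 1
  have h4 : ∀ f ∈ shadow H, ((nb H f).card : ℚ) * G f = ∑ _w ∈ nb H f, G f := by
    intro f _
    rw [sum_const, nsmul_eq_mul]
  rw [sum_congr rfl h4, sum_sigma', sum_sigma']
  refine sum_bij' (fun p _ => ⟨p.1.erase p.2, p.2⟩) (fun p _ => ⟨insert p.2 p.1, p.2⟩) ?_ ?_ ?_ ?_ ?_
  · rintro ⟨h, y⟩ hp
    rw [mem_sigma] at hp ⊢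
    simp only at hp ⊢
    have h2 : y ∈ nb H (h.erase y) := mem_nb.2 ⟨notMem_erase y h, by
      rw [insert_erase hp.2]; exact hp.1⟩
    exact ⟨mem_shadow_nb.2 ⟨y, h2⟩, h2⟩
  · rintro ⟨f, w⟩ hp
    rw [mem_sigma] at hp ⊢
    simp only at hp ⊢
    exact ⟨(mem_nb.1 hp.2).2, mem_insert_self _ _⟩
  · rintro ⟨h, y⟩ hp
    rw [mem_sigma] at hp
    simp only at hp ⊢
    rw [insert_erase hp.2]
  · rintro ⟨f, w⟩ hp
    rw [mem_sigma] at hp
    simp only at hp ⊢
    rw [erase_insert (mem_nb.1 hp.2).1]
  · rintro ⟨h, y⟩ hp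
    rfl

end Pool.Agent.TH636.KT
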