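import Pool.Agent.TH636.KT.Good

/-!
# The bound for tight trees with a small trunk
-/

set_option autoImplicit false

namespace Pool.Agent.TH636.KT

open Finset

variable {n : ℕ}

theorem trunkBound (r t c : ℕ) (hr : 2 ≤ r) (hc : 1 ≤ c) (hct : c ≤ t) (e : ℕ → Finset ℕ)
    (hcard : ∀ i, i < t → (e i).card = r)
    (htight : ∀ i, 0 < i → i < t →
      ∃ v ∈ e i, (∀ j, j < i → v ∉ e j) ∧ ∃ j, j < i ∧ e i \ {v} ⊆ e j)
    (htrunk : ∀ i j, i < t → j < t → i ≠ j → e i ∩ e j ⊆ (range c).biUnion e)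
    (H : Finset (Finset (Fin n))) (huni : ∀ h ∈ H, h.card = r)
    (hno : ¬ ∃ f : ℕ → Fin n, Set.InjOn f {x : ℕ | ∃ i, i < t ∧ x ∈ e i} ∧
      ∀ i, i < t → (e i).image f ∈ H) :
    2 * r * H.card ≤ (2 * (t - 1) + (c - 1) * (2 * r + c - 2)) * (shadow H).card := by
  classical
  by_contra hcon
  push Not at hcon
  obtain ⟨H', hH', hlt, hdeg⟩ := prune (2 * r) (2 * (t - 1) + (c - 1) * (2 * r + c - 2)) H.card H
    rfl hcon
  have huni' : ∀ h ∈ H', h.card = r := fun h hh => huni h (hH' hh)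
  have hr0 : 0 < r := by omega
  -- new vertices
  have hex : ∀ i, ∃ v : ℕ, 1 ≤ i → i < t →
      v ∈ e i ∧ (∀ j, j < i → v ∉ e j) ∧ ∃ j, j < i ∧ (e i).erase v ⊆ e j := by
    intro i
    by_cases hi : 1 ≤ i ∧ i < t
    · obtain ⟨v, h1, h2, j, h3, h4⟩ := htight i (by omega) hi.2
      exact ⟨v, fun _ _ => ⟨h1, h2, j, h3, by rwa [← sdiff_singleton_eq_erase]⟩⟩
    · exact ⟨0, fun h1 h2 => absurd ⟨h1, h2⟩ hi⟩
  choose v hv using hex
  -- the first edge
  set q : Fin r ≃ e 0 := ((e 0).equivFinOfCardEq (hcard 0 (by omega))).symm with hq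
  set X0 : Fin r → ℕ := fun i => (q i : ℕ) with hX0
  have hX0i : Function.Injective X0 := fun a b hab => q.injective (Subtype.ext hab)
  have hX0e : univ.image X0 = e 0 := by
    ext x
    simp only [mem_image, mem_univ, true_and]
    constructor
    · rintro ⟨i, rfl⟩
      exact (q i).2
    · intro hx
      exact ⟨q.symm ⟨x, hx⟩, by simp [hX0]⟩
  have ht : Tr r c e v X0 :=
    { card := fun k hk => hcard k (by omega)
      mem := fun k hk1 hk => (hv k hk1 (by omega)).1
      new := fun k hk1 hk => (hv k hk1 (by omega)).2.1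
      sub := fun k hk1 hk => (hv k hk1 (by omega)).2.2
      inj := hX0i
      img := hX0e }
  -- the facets of the leaf edges
  have hleaf : ∀ i, c ≤ i → i < t → v i ∉ vs e c ∧
      (∃ p, p < c ∧ (e i).erase (v i) ⊆ e p) ∧ ((e i).erase (v i)).card + 1 = r := by
    intro i
    induction i using Nat.strong_induction_on with
    | _ i ih =>
      intro hi1 hi2
      obtain ⟨h1, h2, j, hj, h3⟩ := hv i (by omega) hi2
      have hvV : v i ∉ vs e c := by
        intro hmem
        obtain ⟨l, hl, hvl⟩ := mem_biUnion.1 hmem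
        exact h2 l (lt_of_lt_of_le (mem_range.1 hl) hi1) hvl
      refine ⟨hvV, ?_, by rw [card_erase_of_mem h1, hcard i hi2]; omega⟩
      by_cases hjc : j < c
      · exact ⟨j, hjc, h3⟩
      · obtain ⟨h4, ⟨p, hp, h5⟩, h6⟩ := ih j hj (by omega) (by omega)
        refine ⟨p, hp, ?_⟩
        have h7 : (e i).erase (v i) ⊆ (e j).erase (v j) := by
          intro x hx
          refine mem_erase.2 ⟨?_, h3 hx⟩
          rintro rfl
          exact h4 (htrunk i j hi2 (by omega) (by omega)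
            (mem_inter.2 ⟨mem_of_mem_erase hx, h3 hx⟩))
        exact h7.trans h5
  -- there is a vertex
  have hne : H'.Nonempty := by
    rw [nonempty_iff_ne_empty]
    rintro rfl
    simp at hlt
  obtain ⟨h0, hh0⟩ := hne
  obtain ⟨b0, -⟩ : h0.Nonempty := card_pos.1 (by rw [huni' h0 hh0]; exact hr0)
  obtain ⟨φ, hφ1, hφ2, hφ3⟩ := ht.good huni' (fun _ => b0) hc hct (fun i => (e i).erase (v i))
    (fun i hi1 hi2 => (hleaf i hi1 hi2).2) hlt hdeg
  have hvinj : ∀ i j, c ≤ i → i < t → c ≤ j → j < t → v i = v j → i = j := by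
    intro i j hi1 hi2 hj1 hj2 hij
    rcases lt_trichotomy i j with h1 | h1 | h1
    · exact absurd (hij ▸ (hv i (by omega) hi2).1) ((hv j (by omega) hj2).2.1 i h1)
    · exact h1
    · exact absurd (hij ▸ (hv j (by omega) hj2).1) ((hv i (by omega) hi2).2.1 j h1)
  -- Hall
  set D : ℕ → ℕ := fun i => (nb H' (((e i).erase (v i)).image φ)).card with hD
  set N : {i // i ∈ Ico c t} → Finset (Fin n) :=
    fun i => nb H' (((e i.1).erase (v i.1)).image φ) \ (vs e c).image φ with hN
  have hNc : ∀ i : {i // i ∈ Ico c t}, D i.1 ≤ (N i).card + c := by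
    intro i
    have hi := mem_Ico.1 i.2
    obtain ⟨h1, ⟨p, hp, h2⟩, h3⟩ := hleaf i.1 hi.1 hi.2
    have h4 := used (H := H') (φ := φ) (h2.trans (sub_vs hp))
    have h5 := card_sdiff_add_card_inter (nb H' (((e i.1).erase (v i.1)).image φ))
      ((vs e c).image φ)
    have h6 : (N i).card =
      (nb H' (((e i.1).erase (v i.1)).image φ) \ (vs e c).image φ).card := rfl
    have h7 : D i.1 = (nb H' (((e i.1).erase (v i.1)).image φ)).card := rfl
    have h8 := ht.vsc hc le_rfl
    omega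
  have hDc : ∀ i ∈ Ico c t, c ≤ D i := by
    intro i hi
    have hi' := mem_Ico.1 hi
    obtain ⟨h1, ⟨p, hp, h2⟩, h3⟩ := hleaf i hi'.1 hi'.2
    obtain ⟨u, hu, hug, hins⟩ := facet (r := r) h2 h3 (ht.card p hp)
    have h4 : ((e i).erase (v i)).image φ ∈ shadow H' := by
      rw [mem_shadow_iff_insert_mem]
      refine ⟨φ u, ?_, ?_⟩
      · intro h
        obtain ⟨z, hz, hzu⟩ := mem_image.1 h
        have := hφ2 (Finset.mem_coe.2 (sub_vs hp (h2 hz))) (Finset.mem_coe.2 (sub_vs hp hu)) hzu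
        exact hug (this ▸ hz)
      · rw [← image_insert, hins]
        exact hφ1 p (by omega)
    have h5 := hdeg _ h4
    have h6 : (c - 1) * (2 * r) ≤ (c - 1) * (2 * r + c - 2) ∨ c = 1 := by
      by_cases h : c = 1
      · exact Or.inr h
      · exact Or.inl (Nat.mul_le_mul_left _ (by omega))
    have h7 : D i = (nb H' (((e i).erase (v i)).image φ)).card := rfl
    rcases h6 with h6 | h6
    · have h8 : 2 * r * (c - 1) < 2 * r * D i := by
        rw [h7, mul_comm (2 * r) (c - 1)]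
        omega
      have := Nat.lt_of_mul_lt_mul_left h8
      omega
    · have h8 : 2 * r * 0 < 2 * r * D i := by
        rw [h7]
        omega
      have := Nat.lt_of_mul_lt_mul_left h8
      omega
  have hall : ∀ s : Finset {i // i ∈ Ico c t}, s.card ≤ (s.biUnion N).card := by
    intro s
    rcases s.eq_empty_or_nonempty with rfl | hs
    · simp
    · obtain ⟨i, his, himax⟩ := exists_max_image s (fun i => D i.1) hs
      have hpos : ∀ j ∈ Ico c t, (0 : ℚ) < (D j : ℚ) - c + 1 := by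
        intro j hj
        have : (c : ℚ) ≤ D j := by exact_mod_cast hDc j hj
        linarith
      have h1 : ∑ j ∈ s, (1 : ℚ) / ((D i.1 : ℚ) - c + 1) ≤ ∑ j ∈ s, (1 : ℚ) / ((D j.1 : ℚ) - c + 1) := by
        refine sum_le_sum fun j hj => one_div_le_one_div_of_le (hpos j.1 j.2) ?_
        have : (D j.1 : ℚ) ≤ D i.1 := by exact_mod_cast himax j hj
        linarith
      have h2 : ∑ j ∈ s, (1 : ℚ) / ((D j.1 : ℚ) - c + 1) =
          ∑ j ∈ s.map (Function.Embedding.subtype _), (1 : ℚ) / ((D j : ℚ) - c + 1) := by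
        rw [sum_map]; rfl
      have h3 : ∑ j ∈ s.map (Function.Embedding.subtype _), (1 : ℚ) / ((D j : ℚ) - c + 1) ≤
          ∑ j ∈ Ico c t, (1 : ℚ) / ((D j : ℚ) - c + 1) := by
        refine sum_le_sum_of_subset_of_nonneg ?_ ?_
        · intro j hj
          obtain ⟨a, _, rfl⟩ := mem_map.1 hj
          exact a.2
        · intro j hj _
          have := hpos j hj
          positivity
      have h4 : (s.card : ℚ) / ((D i.1 : ℚ) - c + 1) < 1 := by
        have h5 : ∑ j ∈ s, (1 : ℚ) / ((D i.1 : ℚ) - c + 1) =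
            (s.card : ℚ) / ((D i.1 : ℚ) - c + 1) := by
          rw [sum_const, nsmul_eq_mul, mul_one_div]
        rw [← h5]
        exact lt_of_le_of_lt (h1.trans (h2.le.trans h3)) hφ3
      rw [div_lt_one (hpos i.1 i.2)] at h4
      have h5 : s.card + c < D i.1 + 1 := by
        have : (s.card : ℚ) + c < D i.1 + 1 := by linarith
        exact_mod_cast this
      have h6 := hNc i
      have h7 : (N i).card ≤ (s.biUnion N).card := card_le_card (subset_biUnion_of_mem N his)
      omega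
  obtain ⟨w, hwinj, hwN⟩ := (all_card_le_biUnion_card_iff_exists_injective N).1 hall
  -- the copy
  set F : ℕ → Fin n := fun x => if hx : ∃ i, ∃ hi : i ∈ Ico c t, x = v i then
    w ⟨hx.choose, hx.choose_spec.choose⟩ else φ x with hF
  have hF1 : ∀ x ∈ vs e c, F x = φ x := by
    intro x hx
    have : ¬ ∃ i, ∃ hi : i ∈ Ico c t, x = v i := by
      rintro ⟨i, hi, rfl⟩
      exact (hleaf i (mem_Ico.1 hi).1 (mem_Ico.1 hi).2).1 hx
    simp only [hF, dif_neg this]
  have hF2 : ∀ i (hi : i ∈ Ico c t), F (v i) = w ⟨i, hi⟩ := by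
    intro i hi
    have hx : ∃ i', ∃ hi : i' ∈ Ico c t, v i = v i' := ⟨i, hi, rfl⟩
    simp only [hF, dif_pos hx]
    congr 1
    refine Subtype.ext ?_
    have h1 := hx.choose_spec.choose
    have h2 := hx.choose_spec.choose_spec
    exact (hvinj _ _ (mem_Ico.1 hi).1 (mem_Ico.1 hi).2 (mem_Ico.1 h1).1 (mem_Ico.1 h1).2 h2).symm
  have hdich : ∀ x, (∃ i, i < t ∧ x ∈ e i) → x ∈ vs e c ∨ ∃ i, ∃ _hi : i ∈ Ico c t, x = v i := by
    rintro x ⟨i, hi, hx⟩
    by_cases hic : i < c
    · exact Or.inl (sub_vs hic hx)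
    · have hic' : c ≤ i := not_lt.1 hic
      by_cases hxv : x = v i
      · exact Or.inr ⟨i, mem_Ico.2 ⟨hic', hi⟩, hxv⟩
      · obtain ⟨p, hp, h5⟩ := (hleaf i hic' hi).2.1
        exact Or.inl (sub_vs hp (h5 (mem_erase.2 ⟨hxv, hx⟩)))
  have hwV : ∀ i, w i ∉ (vs e c).image φ := fun i => (mem_sdiff.1 (hwN i)).2
  refine hno ⟨F, ?_, ?_⟩
  · intro a ha b hb hab
    rcases hdich a ha with ha | ⟨i, hi, rfl⟩
    · rcases hdich b hb with hb | ⟨j, hj, rfl⟩
      · rw [hF1 a ha, hF1 b hb] at hab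
        exact hφ2 (Finset.mem_coe.2 ha) (Finset.mem_coe.2 hb) hab
      · rw [hF1 a ha, hF2 j hj] at hab
        exact absurd (hab ▸ mem_image_of_mem φ ha) (hwV _)
    · rcases hdich b hb with hb | ⟨j, hj, rfl⟩
      · rw [hF1 b hb, hF2 i hi] at hab
        exact absurd (hab ▸ mem_image_of_mem φ hb) (hwV _)
      · rw [hF2 i hi, hF2 j hj] at hab
        have := congrArg Subtype.val (hwinj hab)
        exact congrArg v this
  · intro i hi
    by_cases hic : i < c
    · have h1 : (e i).image F = (e i).image φ :=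
        image_congr fun x hx => hF1 x (sub_vs hic (Finset.mem_coe.1 hx))
      rw [h1]
      exact hH' (hφ1 i (by omega))
    · have hic' : c ≤ i := not_lt.1 hic
      have hi' : i ∈ Ico c t := mem_Ico.2 ⟨hic', hi⟩
      obtain ⟨p, hp, h5⟩ := (hleaf i hic' hi).2.1
      have h2 : ((e i).erase (v i)).image F = ((e i).erase (v i)).image φ :=
        image_congr fun x hx => hF1 x (sub_vs hp (h5 (Finset.mem_coe.1 hx)))
      rw [← insert_erase (hv i (by omega) hi).1, image_insert, h2, hF2 i hi']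
      exact hH' (mem_nb.1 (mem_sdiff.1 (hwN ⟨i, hi'⟩)).1).2

end Pool.Agent.TH636.KT
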