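import Pool.Agent.TH636.KT.Good2

/-!
# The bounds for tight trees with a small trunk: the non-backtracking version
-/

set_option autoImplicit false

namespace Pool.Agent.TH636.KT

open Finset

variable {n : ℕ}

lemma setup {r t c : ℕ} (hr : 2 ≤ r) (hc : 1 ≤ c) (hct : c ≤ t) {e : ℕ → Finset ℕ}
    (hcard : ∀ i, i < t → (e i).card = r)
    (htight : ∀ i, 0 < i → i < t →
      ∃ v ∈ e i, (∀ j, j < i → v ∉ e j) ∧ ∃ j, j < i ∧ e i \ {v} ⊆ e j)
    (htrunk : ∀ i j, i < t → j < t → i ≠ j → e i ∩ e j ⊆ (range c).biUnion e) :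
    ∃ (u v : ℕ → ℕ) (X0 : Fin r → ℕ), Tr r c e v X0 ∧
      (∀ k, 1 ≤ k → k < c → ∃ j, j < k ∧ u k ∈ e j ∧ u k ∉ (e k).erase (v k) ∧
        insert (u k) ((e k).erase (v k)) = e j) ∧
      (∀ i, 1 ≤ i → i < t → v i ∈ e i ∧ ∀ j, j < i → v i ∉ e j) ∧
      (∀ i, c ≤ i → i < t → v i ∉ vs e c ∧
        (∃ p, p < c ∧ (e i).erase (v i) ⊆ e p) ∧ ((e i).erase (v i)).card + 1 = r) := by
  classical
  have hr0 : 0 < r := by omega
  have hex : ∀ i, ∃ v : ℕ, 1 ≤ i → i < t →
      v ∈ e i ∧ (∀ j, j < i → v ∉ e j) ∧ ∃ j, j < i ∧ (e i).erase v ⊆ e j := by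
    intro i
    by_cases hi : 1 ≤ i ∧ i < t
    · obtain ⟨v, h1, h2, j, h3, h4⟩ := htight i (by omega) hi.2
      exact ⟨v, fun _ _ => ⟨h1, h2, j, h3, by rwa [← sdiff_singleton_eq_erase]⟩⟩
    · exact ⟨0, fun h1 h2 => absurd ⟨h1, h2⟩ hi⟩
  choose v hv using hex
  have hex2 : ∀ k, ∃ u : ℕ, 1 ≤ k → k < c → ∃ j, j < k ∧ u ∈ e j ∧ u ∉ (e k).erase (v k) ∧
      insert u ((e k).erase (v k)) = e j := by
    intro k
    by_cases hk : 1 ≤ k ∧ k < c
    · obtain ⟨h1, h2, j, hj, h3⟩ := hv k hk.1 (by omega)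
      obtain ⟨u, hu, huf, hins⟩ := facet (r := r) h3
        (by rw [card_erase_of_mem h1, hcard k (by omega)]; omega) (hcard j (by omega))
      exact ⟨u, fun _ _ => ⟨j, hj, hu, huf, hins⟩⟩
    · exact ⟨0, fun h1 h2 => absurd ⟨h1, h2⟩ hk⟩
  choose u hu using hex2
  set q : Fin r ≃ e 0 := ((e 0).equivFinOfCardEq (hcard 0 (by omega))).symm with hq
  set X0 : Fin r → ℕ := fun i => (q i : ℕ) with hX0
  have hX0i : Function.Injective X0 := fun a b hab => q.injective (Subtype.ext hab)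
  have hX0e : univ.image X0 = e 0 := by
    ext x
    simp only [mem_image, mem_univ, true_and]
    constructor
    · rintro ⟨i, rfl⟩
      exact (q i).2
    · intro hx
      exact ⟨q.symm ⟨x, hx⟩, by simp [hX0]⟩
  have ht : Tr r c e v X0 :=
    { card := fun k hk => hcard k (by omega)
      mem := fun k hk1 hk => (hv k hk1 (by omega)).1
      new := fun k hk1 hk => (hv k hk1 (by omega)).2.1
      sub := fun k hk1 hk => (hv k hk1 (by omega)).2.2
      inj := hX0i
      img := hX0e }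
  refine ⟨u, v, X0, ht, hu, fun i h1 h2 => ⟨(hv i h1 h2).1, (hv i h1 h2).2.1⟩, ?_⟩
  intro i
  induction i using Nat.strong_induction_on with
  | _ i ih =>
    intro hi1 hi2
    obtain ⟨h1, h2, j, hj, h3⟩ := hv i (by omega) hi2
    have hvV : v i ∉ vs e c := by
      intro hmem
      obtain ⟨l, hl, hvl⟩ := mem_biUnion.1 hmem
      exact h2 l (lt_of_lt_of_le (mem_range.1 hl) hi1) hvl
    refine ⟨hvV, ?_, by rw [card_erase_of_mem h1, hcard i hi2]; omega⟩
    by_cases hjc : j < c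
    · exact ⟨j, hjc, h3⟩
    · obtain ⟨h4, ⟨p, hp, h5⟩, h6⟩ := ih j hj (by omega) (by omega)
      refine ⟨p, hp, ?_⟩
      have h7 : (e i).erase (v i) ⊆ (e j).erase (v j) := by
        intro x hx
        refine mem_erase.2 ⟨?_, h3 hx⟩
        rintro rfl
        exact h4 (htrunk i j hi2 (by omega) (by omega)
          (mem_inter.2 ⟨mem_of_mem_erase hx, h3 hx⟩))
      exact h7.trans h5

lemma copy {r t c : ℕ} {e : ℕ → Finset ℕ} {v : ℕ → ℕ} {X0 : Fin r → ℕ}
    {H : Finset (Finset (Fin n))} (ht : Tr r c e v X0) (hc : 1 ≤ c)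
    (hv : ∀ i, 1 ≤ i → i < t → v i ∈ e i ∧ ∀ j, j < i → v i ∉ e j)
    (hleaf : ∀ i, c ≤ i → i < t → v i ∉ vs e c ∧
        (∃ p, p < c ∧ (e i).erase (v i) ⊆ e p) ∧ ((e i).erase (v i)).card + 1 = r)
    {φ : ℕ → Fin n} (hφ1 : Hom H e (c - 1) φ) (hφ2 : Set.InjOn φ (vs e c))
    (hHall : ∀ i ∈ Ico c t, ((Ico c t).filter fun j =>
      (nb H (((e j).erase (v j)).image φ)).card ≤ (nb H (((e i).erase (v i)).image φ)).card).card +
        c ≤ (nb H (((e i).erase (v i)).image φ)).card) :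
    ∃ f : ℕ → Fin n, Set.InjOn f {x : ℕ | ∃ i, i < t ∧ x ∈ e i} ∧
      ∀ i, i < t → (e i).image f ∈ H := by
  classical
  have hvinj : ∀ i j, c ≤ i → i < t → c ≤ j → j < t → v i = v j → i = j := by
    intro i j hi1 hi2 hj1 hj2 hij
    rcases lt_trichotomy i j with h1 | h1 | h1
    · exact absurd (hij ▸ (hv i (by omega) hi2).1) ((hv j (by omega) hj2).2 i h1)
    · exact h1
    · exact absurd (hij ▸ (hv j (by omega) hj2).1) ((hv i (by omega) hi2).2 j h1)
  set D : ℕ → ℕ := fun i => (nb H (((e i).erase (v i)).image φ)).card with hD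
  set N : {i // i ∈ Ico c t} → Finset (Fin n) :=
    fun i => nb H (((e i.1).erase (v i.1)).image φ) \ (vs e c).image φ with hN
  have hNc : ∀ i : {i // i ∈ Ico c t}, D i.1 ≤ (N i).card + c := by
    intro i
    have hi := mem_Ico.1 i.2
    obtain ⟨h1, ⟨p, hp, h2⟩, h3⟩ := hleaf i.1 hi.1 hi.2
    have h4 := used (H := H) (φ := φ) (h2.trans (sub_vs hp))
    have h5 := card_sdiff_add_card_inter (nb H (((e i.1).erase (v i.1)).image φ))
      ((vs e c).image φ)
    have h6 : (N i).card =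
      (nb H (((e i.1).erase (v i.1)).image φ) \ (vs e c).image φ).card := rfl
    have h7 : D i.1 = (nb H (((e i.1).erase (v i.1)).image φ)).card := rfl
    have h8 := ht.vsc hc le_rfl
    omega
  have hall : ∀ s : Finset {i // i ∈ Ico c t}, s.card ≤ (s.biUnion N).card := by
    intro s
    rcases s.eq_empty_or_nonempty with rfl | hs
    · simp
    · obtain ⟨i, his, himax⟩ := exists_max_image s (fun i => D i.1) hs
      have h1 : s.map (Function.Embedding.subtype _) ⊆
          (Ico c t).filter fun j => D j ≤ D i.1 := by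
        intro a ha
        rw [mem_map] at ha
        obtain ⟨b, hb, rfl⟩ := ha
        exact mem_filter.2 ⟨b.2, himax b hb⟩
      have h2 := card_le_card h1
      rw [card_map] at h2
      have h3 := hHall i.1 i.2
      have h6 := hNc i
      have h7 : (N i).card ≤ (s.biUnion N).card := card_le_card (subset_biUnion_of_mem N his)
      have h8 : D i.1 = (nb H (((e i.1).erase (v i.1)).image φ)).card := rfl
      have h9 : ((Ico c t).filter fun j => D j ≤ D i.1).card + c ≤ D i.1 := h3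
      omega
  obtain ⟨w, hwinj, hwN⟩ := (all_card_le_biUnion_card_iff_exists_injective N).1 hall
  -- the copy
  set F : ℕ → Fin n := fun x => if hx : ∃ i, ∃ hi : i ∈ Ico c t, x = v i then
    w ⟨hx.choose, hx.choose_spec.choose⟩ else φ x with hF
  have hF1 : ∀ x ∈ vs e c, F x = φ x := by
    intro x hx
    have : ¬ ∃ i, ∃ hi : i ∈ Ico c t, x = v i := by
      rintro ⟨i, hi, rfl⟩
      exact (hleaf i (mem_Ico.1 hi).1 (mem_Ico.1 hi).2).1 hx
    simp only [hF, dif_neg this]
  have hF2 : ∀ i (hi : i ∈ Ico c t), F (v i) = w ⟨i, hi⟩ := by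
    intro i hi
    have hx : ∃ i', ∃ hi : i' ∈ Ico c t, v i = v i' := ⟨i, hi, rfl⟩
    simp only [hF, dif_pos hx]
    congr 1
    refine Subtype.ext ?_
    have h1 := hx.choose_spec.choose
    have h2 := hx.choose_spec.choose_spec
    exact (hvinj _ _ (mem_Ico.1 hi).1 (mem_Ico.1 hi).2 (mem_Ico.1 h1).1 (mem_Ico.1 h1).2 h2).symm
  have hdich : ∀ x, (∃ i, i < t ∧ x ∈ e i) → x ∈ vs e c ∨ ∃ i, ∃ _hi : i ∈ Ico c t, x = v i := by
    rintro x ⟨i, hi, hx⟩
    by_cases hic : i < c
    · exact Or.inl (sub_vs hic hx)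
    · have hic' : c ≤ i := not_lt.1 hic
      by_cases hxv : x = v i
      · exact Or.inr ⟨i, mem_Ico.2 ⟨hic', hi⟩, hxv⟩
      · obtain ⟨p, hp, h5⟩ := (hleaf i hic' hi).2.1
        exact Or.inl (sub_vs hp (h5 (mem_erase.2 ⟨hxv, hx⟩)))
  have hwV : ∀ i, w i ∉ (vs e c).image φ := fun i => (mem_sdiff.1 (hwN i)).2
  refine ⟨F, ?_, ?_⟩
  · intro a ha b hb hab
    rcases hdich a ha with ha | ⟨i, hi, rfl⟩
    · rcases hdich b hb with hb | ⟨j, hj, rfl⟩
      · rw [hF1 a ha, hF1 b hb] at hab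
        exact hφ2 (Finset.mem_coe.2 ha) (Finset.mem_coe.2 hb) hab
      · rw [hF1 a ha, hF2 j hj] at hab
        exact absurd (hab ▸ mem_image_of_mem φ ha) (hwV _)
    · rcases hdich b hb with hb | ⟨j, hj, rfl⟩
      · rw [hF1 b hb, hF2 i hi] at hab
        exact absurd (hab ▸ mem_image_of_mem φ hb) (hwV _)
      · rw [hF2 i hi, hF2 j hj] at hab
        have := congrArg Subtype.val (hwinj hab)
        exact congrArg v this
  · intro i hi
    by_cases hic : i < c
    · have h1 : (e i).image F = (e i).image φ :=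
        image_congr fun x hx => hF1 x (sub_vs hic (Finset.mem_coe.1 hx))
      rw [h1]
      exact hφ1 i (by omega)
    · have hic' : c ≤ i := not_lt.1 hic
      have hi' : i ∈ Ico c t := mem_Ico.2 ⟨hic', hi⟩
      obtain ⟨p, hp, h5⟩ := (hleaf i hic' hi).2.1
      have h2 : ((e i).erase (v i)).image F = ((e i).erase (v i)).image φ :=
        image_congr fun x hx => hF1 x (sub_vs hp (h5 (Finset.mem_coe.1 hx)))
      rw [← insert_erase (hv i (by omega) hi).1, image_insert, h2, hF2 i hi']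
      exact (mem_nb.1 (mem_sdiff.1 (hwN ⟨i, hi'⟩)).1).2

/-- the sharper bound for all hosts -/
theorem trunkBound2 (r t c : ℕ) (hr : 2 ≤ r) (hc : 1 ≤ c) (hct : c ≤ t) (e : ℕ → Finset ℕ)
    (hcard : ∀ i, i < t → (e i).card = r)
    (htight : ∀ i, 0 < i → i < t →
      ∃ v ∈ e i, (∀ j, j < i → v ∉ e j) ∧ ∃ j, j < i ∧ e i \ {v} ⊆ e j)
    (htrunk : ∀ i j, i < t → j < t → i ≠ j → e i ∩ e j ⊆ (range c).biUnion e)
    (H : Finset (Finset (Fin n))) (huni : ∀ h ∈ H, h.card = r)
    (hno : ¬ ∃ f : ℕ → Fin n, Set.InjOn f {x : ℕ | ∃ i, i < t ∧ x ∈ e i} ∧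
      ∀ i, i < t → (e i).image f ∈ H) :
    2 * r * H.card ≤ (2 * (t - c) + (c - 1) * (2 * r + c - 2)) * (shadow H).card := by
  classical
  by_contra hcon
  push Not at hcon
  obtain ⟨H', hH', hlt, hdeg⟩ := prune (2 * r) (2 * (t - c) + (c - 1) * (2 * r + c - 2)) H.card H
    rfl hcon
  have huni' : ∀ h ∈ H', h.card = r := fun h hh => huni h (hH' hh)
  have hr0 : 0 < r := by omega
  obtain ⟨u, v, X0, ht, hu, hv, hleaf⟩ := setup hr hc hct hcard htight htrunk
  have hne : H'.Nonempty := by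
    rw [nonempty_iff_ne_empty]
    rintro rfl
    simp at hlt
  obtain ⟨h0, hh0⟩ := hne
  obtain ⟨b0, -⟩ : h0.Nonempty := card_pos.1 (by rw [huni' h0 hh0]; exact hr0)
  have hdc : ∀ f ∈ shadow H', c ≤ (nb H' f).card := by
    intro f hf
    have h5 := hdeg f hf
    rcases (show c = 1 ∨ 2 ≤ c by omega) with h | h
    · have h8 : 2 * r * 0 < 2 * r * (nb H' f).card := by omega
      have := Nat.lt_of_mul_lt_mul_left h8
      omega
    · have h6 : (c - 1) * (2 * r) ≤ (c - 1) * (2 * r + c - 2) := Nat.mul_le_mul_left _ (by omega)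
      have h8 : 2 * r * (c - 1) < 2 * r * (nb H' f).card := by
        rw [mul_comm (2 * r) (c - 1)]
        omega
      have := Nat.lt_of_mul_lt_mul_left h8
      omega
  have ht2 : Tr2 H' r c e u v X0 :=
    { uni := huni'
      two := fun h f hf => h.trans (hdc f hf)
      tr := ht
      old := hu }
  have hcq : (1 : ℚ) ≤ c := by exact_mod_cast hc
  have hctq : (c : ℚ) ≤ t := by exact_mod_cast hct
  have hdcq : ∀ f ∈ shadow H', (c : ℚ) ≤ (nb H' f).card := fun f hf => by exact_mod_cast hdc f hf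
  have hpos : ∀ f ∈ shadow H', (0 : ℚ) < (nb H' f).card - c + 1 := by
    intro f hf
    have := hdcq f hf
    linarith
  have hM : ((2 * (t - c) + (c - 1) * (2 * r + c - 2) : ℕ) : ℚ) =
      2 * ((t : ℚ) - c) + (c - 1) * (2 * r + c - 2) := by
    rw [Nat.cast_add, Nat.cast_mul, Nat.cast_mul, Nat.cast_sub hct, Nat.cast_sub hc,
      Nat.cast_sub (show 2 ≤ 2 * r + c by omega)]
    push_cast
    ring
  -- a good homomorphism
  obtain ⟨φ, hφ1, hφ2, hφ3⟩ : ∃ φ : ℕ → Fin n, Hom H' e (c - 1) φ ∧ Set.InjOn φ (vs e c) ∧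
      ∑ i ∈ Ico c t, (fun f : Finset (Fin n) => (1 : ℚ) / ((nb H' f).card - c + 1))
        (((e i).erase (v i)).image φ) < 1 := by
    by_contra hcon2
    push Not at hcon2
    have h1 := ht2.expect (fun _ => b0) hc hct (fun i => (e i).erase (v i))
      (fun i hi1 hi2 => (hleaf i hi1 hi2).2)
      (fun f : Finset (Fin n) => (1 : ℚ) / ((nb H' f).card - c + 1))
      (fun f hf => by have := hpos f hf; positivity) hcon2
    have h2 : ∀ f ∈ shadow H', (((c : ℚ) - 1) * (c - 2) *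
        (((nb H' f).card : ℚ) * (1 / ((nb H' f).card - 1 : ℕ))) +
        2 * (((t : ℚ) - c) * (((nb H' f).card : ℚ) * (1 / ((nb H' f).card - c + 1))))) ≤
        2 * ((t : ℚ) - c) + (c - 1) * (2 * r + c - 2) := by
      intro f hf
      have h3 := hpos f hf
      have h4 := hdc f hf
      have h5 : (2 * ((t : ℚ) - c) + (c - 1) * (2 * r + c - 2)) < 2 * r * (nb H' f).card := by
        rw [← hM]; exact_mod_cast hdeg f hf
      rw [Nat.cast_sub (show 1 ≤ (nb H' f).card by omega), Nat.cast_one]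
      set d : ℚ := ((nb H' f).card : ℚ) with hd
      have h6 : ((c : ℚ) - 1) * (c - 2) * (d * (1 / (d - 1))) ≤
          ((c : ℚ) - 1) * (c - 2) * (d * (1 / (d - c + 1))) := by
        rcases (show c = 1 ∨ 2 ≤ c by omega) with h | h
        · rw [h]; norm_num
        · have hc2 : (2 : ℚ) ≤ c := by exact_mod_cast h
          refine mul_le_mul_of_nonneg_left ?_ (mul_nonneg (by linarith) (by linarith))
          refine mul_le_mul_of_nonneg_left ?_ (by positivity)
          exact one_div_le_one_div_of_le h3 (by linarith)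
      have h7 : ((c : ℚ) - 1) * (c - 2) * (d * (1 / (d - c + 1))) +
          2 * (((t : ℚ) - c) * (d * (1 / (d - c + 1)))) =
          (((c : ℚ) - 1) * (c - 2) + 2 * (t - c)) * d / (d - c + 1) := by
        field_simp
      have h8 : (((c : ℚ) - 1) * (c - 2) + 2 * (t - c)) * d / (d - c + 1) ≤
          2 * ((t : ℚ) - c) + (c - 1) * (2 * r + c - 2) := by
        rw [div_le_iff₀ h3]
        have h9 : 0 ≤ ((c : ℚ) - 1) *
            (2 * r * d - (2 * ((t : ℚ) - c) + (c - 1) * (2 * r + c - 2))) :=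
          mul_nonneg (by linarith) (by linarith)
        nlinarith
      linarith
    have h3 := h1.trans (sum_le_sum h2)
    rw [sum_const, nsmul_eq_mul, ← hM] at h3
    have h4 : (((2 * (t - c) + (c - 1) * (2 * r + c - 2)) * (shadow H').card : ℕ) : ℚ) <
        ((2 * r * H'.card : ℕ) : ℚ) := by exact_mod_cast hlt
    rw [Nat.cast_mul] at h4
    push_cast at h3 h4
    linarith
  obtain ⟨F, hF1, hF2⟩ := copy (H := H') ht hc hv hleaf hφ1 hφ2 (by
    intro i hi
    have hsh : ∀ j ∈ Ico c t, ((e j).erase (v j)).image φ ∈ shadow H' := by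
      intro j hj
      have hj' := mem_Ico.1 hj
      obtain ⟨⟨p, hp, h2⟩, h3⟩ := (hleaf j hj'.1 hj'.2).2
      exact hom_shadow huni' (ht.card p hp) (hφ1 p (by omega)) h2 h3
    set D : ℕ → ℕ := fun i => (nb H' (((e i).erase (v i)).image φ)).card with hD
    have hpos' : ∀ j ∈ Ico c t, (0 : ℚ) < (D j : ℚ) - c + 1 := fun j hj => hpos _ (hsh j hj)
    have h1 : ∑ j ∈ (Ico c t).filter (fun j => D j ≤ D i), (1 : ℚ) / ((D i : ℚ) - c + 1) ≤
        ∑ j ∈ (Ico c t).filter (fun j => D j ≤ D i), (1 : ℚ) / ((D j : ℚ) - c + 1) := by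
      refine sum_le_sum fun j hj => one_div_le_one_div_of_le (hpos' j (mem_filter.1 hj).1) ?_
      have : (D j : ℚ) ≤ D i := by exact_mod_cast (mem_filter.1 hj).2
      linarith
    have h3 : ∑ j ∈ (Ico c t).filter (fun j => D j ≤ D i), (1 : ℚ) / ((D j : ℚ) - c + 1) ≤
        ∑ j ∈ Ico c t, (1 : ℚ) / ((D j : ℚ) - c + 1) := by
      refine sum_le_sum_of_subset_of_nonneg (filter_subset _ _) ?_
      intro j hj _
      have := hpos' j hj
      positivity
    have h4 := lt_of_le_of_lt (h1.trans h3) hφ3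
    rw [sum_const, nsmul_eq_mul, mul_one_div, div_lt_one (hpos' i hi)] at h4
    have h5 : ((Ico c t).filter (fun j => D j ≤ D i)).card + c < D i + 1 := by
      have : (((Ico c t).filter (fun j => D j ≤ D i)).card : ℚ) + c < D i + 1 := by linarith
      exact_mod_cast this
    have h6 : ((Ico c t).filter (fun j => D j ≤ D i)).card + c ≤ D i := by omega
    exact h6)
  exact hno ⟨F, hF1, fun i hi => hH' (hF2 i hi)⟩

/-- the sharper bound for hosts of bounded codegree -/
theorem codegree (r t c : ℕ) (hr : 2 ≤ r) (hc : 1 ≤ c) (hct : c ≤ t) (hrt : r < t)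
    (e : ℕ → Finset ℕ)
    (hcard : ∀ i, i < t → (e i).card = r)
    (htight : ∀ i, 0 < i → i < t →
      ∃ v ∈ e i, (∀ j, j < i → v ∉ e j) ∧ ∃ j, j < i ∧ e i \ {v} ⊆ e j)
    (htrunk : ∀ i j, i < t → j < t → i ≠ j → e i ∩ e j ⊆ (range c).biUnion e)
    (H : Finset (Finset (Fin n))) (huni : ∀ h ∈ H, h.card = r)
    (hcod : ∀ f ∈ shadow H, r * (c - 1) * (nb H f).card ≤ t * (t - 1))
    (hno : ¬ ∃ f : ℕ → Fin n, Set.InjOn f {x : ℕ | ∃ i, i < t ∧ x ∈ e i} ∧
      ∀ i, i < t → (e i).image f ∈ H) :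
    r * H.card ≤ (t - 1 + (c - 1) * (c - 2)) * (shadow H).card := by
  classical
  by_contra hcon
  push Not at hcon
  obtain ⟨H', hH', hlt, hdeg⟩ := prune r (t - 1 + (c - 1) * (c - 2)) H.card H rfl hcon
  have huni' : ∀ h ∈ H', h.card = r := fun h hh => huni h (hH' hh)
  have hr0 : 0 < r := by omega
  obtain ⟨u, v, X0, ht, hu, hv, hleaf⟩ := setup hr hc hct hcard htight htrunk
  have hne : H'.Nonempty := by
    rw [nonempty_iff_ne_empty]
    rintro rfl
    simp at hlt
  obtain ⟨h0, hh0⟩ := hne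
  obtain ⟨b0, -⟩ : h0.Nonempty := card_pos.1 (by rw [huni' h0 hh0]; exact hr0)
  have hdt : ∀ f ∈ shadow H', t ≤ r * (nb H' f).card := by
    intro f hf
    have h5 := hdeg f hf
    omega
  have hd2 : ∀ f ∈ shadow H', 2 ≤ (nb H' f).card := by
    intro f hf
    have h5 := hdt f hf
    by_contra hle
    have h6 : r * (nb H' f).card ≤ r * 1 := Nat.mul_le_mul_left _ (by omega)
    omega
  have hcod' : ∀ f ∈ shadow H', r * (c - 1) * (nb H' f).card ≤ t * (t - 1) := by
    intro f hf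
    refine le_trans (Nat.mul_le_mul_left _ (card_le_card ?_)) (hcod f (shadow_mono hH' hf))
    intro w hw
    exact mem_nb.2 ⟨(mem_nb.1 hw).1, hH' (mem_nb.1 hw).2⟩
  have ht2 : Tr2 H' r c e u v X0 :=
    { uni := huni'
      two := fun _ f hf => hd2 f hf
      tr := ht
      old := hu }
  have hcq : (1 : ℚ) ≤ c := by exact_mod_cast hc
  have hctq : (c : ℚ) ≤ t := by exact_mod_cast hct
  have htq : (1 : ℚ) < t := by
    have : 1 < t := by omega
    exact_mod_cast this
  have hcc : ((c : ℚ) - 1) * (c - 2) = (((c - 1) * (c - 2) : ℕ) : ℚ) := by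
    rcases (show c = 1 ∨ 2 ≤ c by omega) with h | h
    · rw [h]; norm_num
    · rw [Nat.cast_mul, Nat.cast_sub hc, Nat.cast_sub h]
      push_cast
      ring
  obtain ⟨φ, hφ1, hφ2, hφ3⟩ : ∃ φ : ℕ → Fin n, Hom H' e (c - 1) φ ∧ Set.InjOn φ (vs e c) ∧
      ∑ i ∈ Ico c t, (fun f : Finset (Fin n) => ((t : ℚ) - 1) / (((t : ℚ) - c) * (nb H' f).card))
        (((e i).erase (v i)).image φ) < 1 := by
    by_contra hcon2
    push Not at hcon2
    have h1 := ht2.expect (fun _ => b0) hc hct (fun i => (e i).erase (v i))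
      (fun i hi1 hi2 => (hleaf i hi1 hi2).2)
      (fun f : Finset (Fin n) => ((t : ℚ) - 1) / (((t : ℚ) - c) * (nb H' f).card))
      (fun f hf => div_nonneg (by linarith)
        (mul_nonneg (by linarith) (Nat.cast_nonneg _))) hcon2
    have h2 : ∀ f ∈ shadow H', (((c : ℚ) - 1) * (c - 2) *
        (((nb H' f).card : ℚ) * (1 / ((nb H' f).card - 1 : ℕ))) +
        2 * (((t : ℚ) - c) * (((nb H' f).card : ℚ) *
          (((t : ℚ) - 1) / (((t : ℚ) - c) * (nb H' f).card))))) ≤
        2 * (((t : ℚ) - 1) + (((c - 1) * (c - 2) : ℕ) : ℚ)) := by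
      intro f hf
      have h4 := hd2 f hf
      have h4' : (2 : ℚ) ≤ (nb H' f).card := by exact_mod_cast h4
      rw [Nat.cast_sub (show 1 ≤ (nb H' f).card by omega), Nat.cast_one, hcc]
      set d : ℚ := ((nb H' f).card : ℚ) with hd
      have h5 : d * (1 / (d - 1)) ≤ 2 := by
        rw [mul_one_div, div_le_iff₀ (by linarith)]
        linarith
      have h6 : (((c - 1) * (c - 2) : ℕ) : ℚ) * (d * (1 / (d - 1))) ≤
          (((c - 1) * (c - 2) : ℕ) : ℚ) * 2 :=
        mul_le_mul_of_nonneg_left h5 (Nat.cast_nonneg _)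
      have h7 : ((t : ℚ) - c) * (d * (((t : ℚ) - 1) / (((t : ℚ) - c) * d))) ≤ (t : ℚ) - 1 := by
        rcases eq_or_lt_of_le hctq with h | h
        · rw [h]; simp; linarith
        · have h8 : (0 : ℚ) < (t : ℚ) - c := by linarith
          have h9 : (0 : ℚ) < d := by linarith
          have : ((t : ℚ) - c) * (d * (((t : ℚ) - 1) / (((t : ℚ) - c) * d))) = (t : ℚ) - 1 := by
            field_simp
          exact this.le
      linarith
    have h3 := h1.trans (sum_le_sum h2)
    rw [sum_const, nsmul_eq_mul] at h3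
    have h4 : (((t - 1 + (c - 1) * (c - 2)) * (shadow H').card : ℕ) : ℚ) <
        ((r * H'.card : ℕ) : ℚ) := by exact_mod_cast hlt
    rw [Nat.cast_mul, Nat.cast_add, Nat.cast_sub (show 1 ≤ t by omega), Nat.cast_one,
      Nat.cast_mul r] at h4
    nlinarith
  obtain ⟨F, hF1, hF2⟩ := copy (H := H') ht hc hv hleaf hφ1 hφ2 (by
    intro i hi
    have hsh : ∀ j ∈ Ico c t, ((e j).erase (v j)).image φ ∈ shadow H' := by
      intro j hj
      have hj' := mem_Ico.1 hj
      obtain ⟨⟨p, hp, h2⟩, h3⟩ := (hleaf j hj'.1 hj'.2).2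
      exact hom_shadow huni' (ht.card p hp) (hφ1 p (by omega)) h2 h3
    have hlt' : (0 : ℚ) < (t : ℚ) - c := by
      have : c < t := lt_of_le_of_lt (mem_Ico.1 hi).1 (mem_Ico.1 hi).2
      have : (c : ℚ) < t := by exact_mod_cast this
      linarith
    set D : ℕ → ℕ := fun i => (nb H' (((e i).erase (v i)).image φ)).card with hD
    have hpos' : ∀ j ∈ Ico c t, (0 : ℚ) < (D j : ℚ) := fun j hj => by
      have : 2 ≤ D j := hd2 _ (hsh j hj)
      have : (2 : ℚ) ≤ D j := by exact_mod_cast this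
      linarith
    set a : ℕ := ((Ico c t).filter (fun j => D j ≤ D i)).card with ha
    have hle : ∀ j ∈ Ico c t, (if D j ≤ D i then ((t : ℚ) - 1) / (((t : ℚ) - c) * D i) else
        ((c : ℚ) - 1) / (((t : ℚ) - c) * D i)) ≤ ((t : ℚ) - 1) / (((t : ℚ) - c) * D j) := by
      intro j hj
      have hpi := hpos' i hi
      have hpj := hpos' j hj
      split_ifs with hji
      · have h1 : (D j : ℚ) ≤ D i := by exact_mod_cast hji
        exact div_le_div_of_nonneg_left (by linarith) (by positivity)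
          (mul_le_mul_of_nonneg_left h1 hlt'.le)
      · rw [div_le_div_iff₀ (by positivity) (by positivity)]
        have h1 : r * (c - 1) * D j ≤ t * (t - 1) := hcod' _ (hsh j hj)
        have h2 : t ≤ r * D i := hdt _ (hsh i hi)
        have h3 : r * ((c - 1) * D j) ≤ r * (D i * (t - 1)) := by
          calc r * ((c - 1) * D j) = r * (c - 1) * D j := by ring
            _ ≤ t * (t - 1) := h1
            _ ≤ (r * D i) * (t - 1) := Nat.mul_le_mul_right _ h2
            _ = r * (D i * (t - 1)) := by ring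
        have h4 : (c - 1) * D j ≤ D i * (t - 1) := Nat.le_of_mul_le_mul_left h3 hr0
        have h5 : (((c - 1) * D j : ℕ) : ℚ) ≤ ((D i * (t - 1) : ℕ) : ℚ) := by exact_mod_cast h4
        rw [Nat.cast_mul, Nat.cast_mul, Nat.cast_sub hc, Nat.cast_sub (show 1 ≤ t by omega),
          Nat.cast_one] at h5
        have h6 := mul_le_mul_of_nonneg_left h5 hlt'.le
        calc ((c : ℚ) - 1) * (((t : ℚ) - c) * D j) = ((t : ℚ) - c) * (((c : ℚ) - 1) * D j) := by
              ring
          _ ≤ ((t : ℚ) - c) * (D i * ((t : ℚ) - 1)) := h6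
          _ = ((t : ℚ) - 1) * (((t : ℚ) - c) * D i) := by ring
    have h1 := lt_of_le_of_lt (sum_le_sum hle) hφ3
    rw [sum_ite, sum_const, sum_const, nsmul_eq_mul, nsmul_eq_mul, filter_not,
      card_sdiff_of_subset (filter_subset _ _), Nat.card_Ico, ← ha] at h1
    have hac : a ≤ t - c := by
      rw [ha, ← Nat.card_Ico]; exact card_le_card (filter_subset _ _)
    rw [Nat.cast_sub hac, Nat.cast_sub hct] at h1
    have hpi := hpos' i hi
    have h2 : (a : ℚ) * (((t : ℚ) - 1) / (((t : ℚ) - c) * D i)) +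
        ((t : ℚ) - c - a) * (((c : ℚ) - 1) / (((t : ℚ) - c) * D i)) =
        ((a : ℚ) + c - 1) / D i := by
      field_simp
      ring
    rw [h2, div_lt_one hpi] at h1
    have h3 : a + c < D i + 1 := by
      have : (a : ℚ) + c < D i + 1 := by linarith
      exact_mod_cast this
    have h4 : a + c ≤ D i := by omega
    exact h4)
  exact hno ⟨F, hF1, fun i hi => hH' (hF2 i hi)⟩

end Pool.Agent.TH636.KT
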