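import Pool.Agent.TH636.KT.Rand

/-!
# The random homomorphism of a tight tree: the functional and its marginals
-/

set_option autoImplicit false

namespace Pool.Agent.TH636.KT

open Finset

variable {n r : ℕ}

/-- one step of the random extension -/
def stp (H : Finset (Finset (Fin n))) (f : Finset ℕ) (v : ℕ) (Φ : (ℕ → Fin n) → ℚ)
    (φ : ℕ → Fin n) : ℚ :=
  (∑ w ∈ nb H (f.image φ), Φ (Function.update φ v w)) / (nb H (f.image φ)).card

/-- (`r! |H|` times) the expectation after `k` steps -/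
noncomputable def T (H : Finset (Finset (Fin n))) (e : ℕ → Finset ℕ) (v : ℕ → ℕ) (X0 : Fin r → ℕ)
    (b : ℕ → Fin n) : ℕ → ((ℕ → Fin n) → ℚ) → ℚ
  | 0, Φ => ∑ y ∈ lab r H, Φ (Function.extend X0 y b)
  | k + 1, Φ => T H e v X0 b k (stp H ((e (k + 1)).erase (v (k + 1))) (v (k + 1)) Φ)

/-- the tight tree with the new vertices `v k` -/
structure Tr (r c : ℕ) (e : ℕ → Finset ℕ) (v : ℕ → ℕ) (X0 : Fin r → ℕ) : Prop where
  card : ∀ k, k < c → (e k).card = r
  mem : ∀ k, 1 ≤ k → k < c → v k ∈ e k
  new : ∀ k, 1 ≤ k → k < c → ∀ j, j < k → v k ∉ e j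
  sub : ∀ k, 1 ≤ k → k < c → ∃ j, j < k ∧ (e k).erase (v k) ⊆ e j
  inj : Function.Injective X0
  img : univ.image X0 = e 0

/-- homomorphisms of the first `k + 1` edges -/
def Hom (H : Finset (Finset (Fin n))) (e : ℕ → Finset ℕ) (k : ℕ) (φ : ℕ → Fin n) : Prop :=
  ∀ j, j ≤ k → (e j).image φ ∈ H

section

variable {H : Finset (Finset (Fin n))} {c : ℕ} {e : ℕ → Finset ℕ} {v : ℕ → ℕ} {X0 : Fin r → ℕ}
  {b : ℕ → Fin n}

lemma upd_image {e : Finset ℕ} {φ : ℕ → Fin n} {v : ℕ} {w : Fin n} (h : v ∉ e) :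
    e.image (Function.update φ v w) = e.image φ := by
  refine image_congr fun x hx => ?_
  refine Function.update_of_ne ?_ _ _
  rintro rfl
  exact h (Finset.mem_coe.1 hx)

lemma Tr.hom0 (ht : Tr r c e v X0) {y : Fin r → Fin n} (hy : y ∈ lab r H) :
    Hom H e 0 (Function.extend X0 y b) := by
  intro j hj
  have : j = 0 := by omega
  subst this
  rw [← ht.img, image_image]
  have h1 : Function.extend X0 y b ∘ X0 = y := by
    funext i; simp [ht.inj.extend_apply]
  rw [h1]
  exact mem_lab.1 hy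

lemma Tr.homS (ht : Tr r c e v X0) {k : ℕ} (hk : k + 1 < c) {φ : ℕ → Fin n} (hφ : Hom H e k φ)
    {w : Fin n} (hw : w ∈ nb H (((e (k + 1)).erase (v (k + 1))).image φ)) :
    Hom H e (k + 1) (Function.update φ (v (k + 1)) w) := by
  intro j hj
  have hj' : j ≤ k ∨ j = k + 1 := by omega
  rcases hj' with hj' | rfl
  · rw [upd_image (ht.new (k + 1) (by omega) hk j (by omega))]
    exact hφ j hj'
  · rw [← insert_erase (ht.mem (k + 1) (by omega) hk), image_insert, Function.update_self,
      upd_image (notMem_erase _ _)]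
    exact (mem_nb.1 hw).2

lemma Tr.mono (ht : Tr r c e v X0) : ∀ (k : ℕ), k < c → ∀ (Φ Ψ : (ℕ → Fin n) → ℚ),
    (∀ φ, Hom H e k φ → Φ φ ≤ Ψ φ) → T H e v X0 b k Φ ≤ T H e v X0 b k Ψ := by
  intro k
  induction k with
  | zero =>
    intro _ Φ Ψ h
    exact sum_le_sum fun y hy => h _ (ht.hom0 hy)
  | succ k ih =>
    intro hk Φ Ψ h
    refine ih (by omega) _ _ fun φ hφ => ?_
    unfold stp
    refine div_le_div_of_nonneg_right ?_ (by positivity)
    exact sum_le_sum fun w hw => h _ (ht.homS hk hφ hw)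

lemma Tr.congr (ht : Tr r c e v X0) {k : ℕ} (hk : k < c) {Φ Ψ : (ℕ → Fin n) → ℚ}
    (h : ∀ φ, Hom H e k φ → Φ φ = Ψ φ) : T H e v X0 b k Φ = T H e v X0 b k Ψ :=
  le_antisymm (ht.mono k hk Φ Ψ fun φ hφ => (h φ hφ).le)
    (ht.mono k hk Ψ Φ fun φ hφ => (h φ hφ).ge)

lemma T_sum {ι : Type} (s : Finset ι) : ∀ (k : ℕ) (Φ : ι → (ℕ → Fin n) → ℚ),
    T H e v X0 b k (fun φ => ∑ i ∈ s, Φ i φ) = ∑ i ∈ s, T H e v X0 b k (Φ i) := by
  intro k
  induction k with
  | zero =>
    intro Φ
    simp only [T]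
    rw [sum_comm]
  | succ k ih =>
    intro Φ
    simp only [T]
    rw [← ih]
    congr 1
    funext φ
    simp only [stp]
    rw [sum_comm, sum_div]

lemma T_add (k : ℕ) (Φ Ψ : (ℕ → Fin n) → ℚ) :
    T H e v X0 b k (fun φ => Φ φ + Ψ φ) = T H e v X0 b k Φ + T H e v X0 b k Ψ := by
  have h := T_sum (H := H) (e := e) (v := v) (X0 := X0) (b := b) (univ : Finset Bool) k
    (fun i => if i then Φ else Ψ)
  simpa using h

lemma T_smul (a : ℚ) : ∀ (k : ℕ) (Φ : (ℕ → Fin n) → ℚ),
    T H e v X0 b k (fun φ => a * Φ φ) = a * T H e v X0 b k Φ := by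
  intro k
  induction k with
  | zero =>
    intro Φ
    simp only [T]
    rw [mul_sum]
  | succ k ih =>
    intro Φ
    simp only [T]
    rw [← ih]
    congr 1
    funext φ
    simp only [stp]
    rw [← mul_sum, mul_div_assoc]

lemma hom_inj {e : Finset ℕ} {φ : ℕ → Fin n} (hH : ∀ h ∈ H, h.card = r) (he : e.card = r)
    (hφ : e.image φ ∈ H) : Set.InjOn φ e := by
  have h1 := hH _ hφ
  rw [← he] at h1
  exact card_image_iff.1 h1

/-- the enumeration of the previous edge -/
lemma enum {k p : ℕ} (hr : (e k).card = r) (hv : v k ∈ e k)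
    (hpc : (e p).card = r) (hsub : (e k).erase (v k) ⊆ e p)
    {X : Fin r → ℕ} (hX : Function.Injective X) (hXe : univ.image X = e k) :
    ∃ (i : Fin r) (X' : Fin r → ℕ), X i = v k ∧ Function.Injective X' ∧ univ.image X' = e p ∧
      (univ.erase i).image X' = (e k).erase (v k) ∧ (∀ j, j ≠ i → X' j = X j) := by
  have hmem : v k ∈ univ.image X := hXe ▸ hv
  obtain ⟨i, -, hi⟩ := mem_image.1 hmem
  have hr0 : 0 < r := by rw [← hr]; exact card_pos.2 ⟨_, hv⟩
  obtain ⟨u, hu, huf, hins⟩ := facet (r := r) hsub (by rw [card_erase_of_mem hv, hr]; omega) hpc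
  have hers : (univ.erase i).image X = (e k).erase (v k) := by
    ext x
    simp only [mem_image, mem_erase, mem_univ, and_true]
    constructor
    · rintro ⟨j, hj, rfl⟩
      refine ⟨fun h => hj (hX (h.trans hi.symm)), ?_⟩
      rw [← hXe]; exact mem_image_of_mem _ (mem_univ _)
    · rintro ⟨hx, hxe⟩
      rw [← hXe, mem_image] at hxe
      obtain ⟨j, -, rfl⟩ := hxe
      refine ⟨j, ?_, rfl⟩
      rintro rfl
      exact hx hi
  have hX'1 : ∀ j, j ≠ i → Function.update X i u j = X j := fun j hj =>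
    Function.update_of_ne hj _ _
  have hers' : (univ.erase i).image (Function.update X i u) = (e k).erase (v k) := by
    rw [← hers]
    exact image_congr fun j hj => hX'1 j (ne_of_mem_erase (Finset.mem_coe.1 hj))
  have himg : univ.image (Function.update X i u) = e p := by
    rw [← insert_erase (mem_univ i), image_insert, Function.update_self, hers', hins]
  refine ⟨i, Function.update X i u, hi, ?_, himg, hers', hX'1⟩
  have h2 : (univ.image (Function.update X i u)).card = (univ : Finset (Fin r)).card := by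
    rw [himg, hpc, card_univ, Fintype.card_fin]
  exact fun a b hab => (card_image_iff.1 h2) (by simp) (by simp) hab

/-- independence of the last vertex -/
lemma Tr.indep (ht : Tr r c e v X0) (hH : ∀ h ∈ H, h.card = r) {k : ℕ} (hk : k + 1 < c)
    (Φ : (ℕ → Fin n) → ℚ)
    (hΦ : ∀ φ w, Φ (Function.update φ (v (k + 1)) w) = Φ φ) :
    T H e v X0 b (k + 1) Φ = T H e v X0 b k Φ := by
  show T H e v X0 b k (stp H ((e (k + 1)).erase (v (k + 1))) (v (k + 1)) Φ) = _
  refine ht.congr (by omega) fun φ hφ => ?_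
  unfold stp
  rw [sum_congr rfl fun w _ => hΦ φ w, sum_const, nsmul_eq_mul]
  have hne : (nb H (((e (k + 1)).erase (v (k + 1))).image φ)).Nonempty := by
    obtain ⟨p, hp, hsub⟩ := ht.sub (k + 1) (by omega) hk
    have hv := ht.mem (k + 1) (by omega) hk
    have hr := ht.card (k + 1) hk
    have hr0 : 0 < r := by rw [← hr]; exact card_pos.2 ⟨_, hv⟩
    obtain ⟨u, hu, huf, hins⟩ := facet (r := r) hsub (by rw [card_erase_of_mem hv, hr]; omega)
      (ht.card p (by omega))
    refine ⟨φ u, mem_nb.2 ⟨?_, ?_⟩⟩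
    · intro hmem
      obtain ⟨z, hz, hzu⟩ := mem_image.1 hmem
      have := hom_inj hH (ht.card p (by omega)) (hφ p (by omega))
        (Finset.mem_coe.2 (hsub hz)) (Finset.mem_coe.2 hu) hzu
      exact huf (this ▸ hz)
    · rw [← image_insert, hins]
      exact hφ p (by omega)
  have h2 : ((nb H (((e (k + 1)).erase (v (k + 1))).image φ)).card : ℚ) ≠ 0 := by
    exact_mod_cast (card_pos.2 hne).ne'
  field_simp

/-- the marginal law -/
lemma Tr.law (ht : Tr r c e v X0) (hH : ∀ h ∈ H, h.card = r) : ∀ (k : ℕ), k < c →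
    ∀ j, j ≤ k → ∀ X : Fin r → ℕ, Function.Injective X → univ.image X = e j →
    ∀ G : (Fin r → Fin n) → ℚ,
      T H e v X0 b k (fun φ => G (φ ∘ X)) = ∑ y ∈ lab r H, G y := by
  intro k
  induction k with
  | zero =>
    intro _ j hj X hX hXe G
    have : j = 0 := by omega
    subst this
    have hmem : ∀ i, X i ∈ univ.image X0 := fun i => by
      rw [ht.img, ← hXe]; exact mem_image_of_mem _ (mem_univ _)
    have h1 : ∀ i, ∃ j, X0 j = X i := fun i => by
      obtain ⟨j, -, hj⟩ := mem_image.1 (hmem i); exact ⟨j, hj⟩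
    choose π hπ using h1
    have hπi : Function.Injective π := fun a b hab => hX (by rw [← hπ, ← hπ, hab])
    have hπb : Function.Bijective π := (Fintype.bijective_iff_injective_and_card _).2 ⟨hπi, rfl⟩
    rw [← perm_sum H (Equiv.ofBijective π hπb) G]
    refine sum_congr rfl fun y _ => congrArg G ?_
    funext i
    simp only [Function.comp_apply, Equiv.ofBijective_apply]
    rw [← hπ i, ht.inj.extend_apply]
  | succ k ih =>
    intro hk j hj X hX hXe G
    have hj' : j ≤ k ∨ j = k + 1 := by omega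
    rcases hj' with hj' | rfl
    · rw [ht.indep hH hk, ih (by omega) j hj' X hX hXe G]
      intro φ w
      congr 1
      funext i
      simp only [Function.comp_apply]
      refine Function.update_of_ne ?_ _ _
      intro h
      refine ht.new (k + 1) (by omega) hk j (by omega) ?_
      rw [← h, ← hXe]; exact mem_image_of_mem _ (mem_univ _)
    · obtain ⟨p, hp, hsub⟩ := ht.sub (k + 1) (by omega) hk
      obtain ⟨i, X', hi, hX'i, hX'e, hers, hX'X⟩ := enum (v := v) (ht.card (k + 1) hk)
        (ht.mem (k + 1) (by omega) hk) (ht.card p (by omega)) hsub hX hXe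
      show T H e v X0 b k (stp H ((e (k + 1)).erase (v (k + 1))) (v (k + 1)) _) = _
      rw [← swap_sum hH i G, ← ih (by omega) p (by omega) X' hX'i hX'e
        (fun y => (∑ w ∈ nb H (fct y i), G (Function.update y i w)) / (nb H (fct y i)).card)]
      refine ht.congr (by omega) fun φ hφ => ?_
      have h1 : fct (φ ∘ X') i = ((e (k + 1)).erase (v (k + 1))).image φ := by
        rw [fct, ← image_image, hers]
      unfold stp
      rw [h1]
      congr 1
      refine sum_congr rfl fun w _ => congrArg G ?_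
      funext l
      by_cases hl : l = i
      · subst hl
        simp [hi]
      · rw [Function.update_of_ne hl, Function.comp_apply, Function.comp_apply, hX'X l hl,
          Function.update_of_ne]
        intro h
        exact hl (hX (h.trans hi.symm))

end

end Pool.Agent.TH636.KT
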