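import Pool.Agent.TH636.KT.Good

/-!
# The non-backtracking random homomorphism of a tight tree
-/

set_option autoImplicit false

namespace Pool.Agent.TH636.KT

open Finset

variable {n r : ℕ}

/-- replacing the vertex with the label `i` by a different one preserves the uniform distribution -/
lemma swap_sum2 {H : Finset (Finset (Fin n))} (hH : ∀ h ∈ H, h.card = r)
    (hH2 : ∀ f ∈ shadow H, 2 ≤ (nb H f).card) (i : Fin r) (G : (Fin r → Fin n) → ℚ) :
    ∑ y ∈ lab r H, (∑ w ∈ (nb H (fct y i)).erase (y i), G (Function.update y i w)) /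
      ((nb H (fct y i)).card - 1 : ℕ) = ∑ y ∈ lab r H, G y := by
  have h1 : ∀ y ∈ lab r H, G y = ∑ _w ∈ (nb H (fct y i)).erase (y i),
      G y / ((nb H (fct y i)).card - 1 : ℕ) := by
    intro y hy
    have h0 := mem_nb_fct hH hy i
    have h3 := hH2 _ (mem_shadow_nb.2 ⟨_, h0⟩)
    have h2 : (((nb H (fct y i)).card - 1 : ℕ) : ℚ) ≠ 0 := by
      have : (nb H (fct y i)).card - 1 ≠ 0 := by omega
      exact_mod_cast this
    rw [sum_const, nsmul_eq_mul, card_erase_of_mem h0]
    field_simp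
  rw [sum_congr rfl h1]
  simp only [sum_div]
  rw [sum_sigma', sum_sigma']
  have key : ∀ y ∈ lab r H, ∀ w ∈ (nb H (fct y i)).erase (y i), Function.update y i w ∈ lab r H ∧
      y i ∈ (nb H (fct (Function.update y i w) i)).erase (Function.update y i w i) := by
    intro y hy w hw
    rw [fct_update, Function.update_self]
    refine ⟨mem_lab.2 ?_, mem_erase.2 ⟨(ne_of_mem_erase hw).symm, mem_nb_fct hH hy i⟩⟩
    rw [← insert_fct _ i, fct_update, Function.update_self]
    exact (mem_nb.1 (mem_of_mem_erase hw)).2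
  refine sum_bij' (fun p _ => ⟨Function.update p.1 i p.2, p.1 i⟩)
    (fun p _ => ⟨Function.update p.1 i p.2, p.1 i⟩) ?_ ?_ ?_ ?_ ?_
  · rintro ⟨y, w⟩ hp
    rw [mem_sigma] at hp ⊢
    exact key y hp.1 w hp.2
  · rintro ⟨y, w⟩ hp
    rw [mem_sigma] at hp ⊢
    exact key y hp.1 w hp.2
  · rintro ⟨y, w⟩ hp
    simp
  · rintro ⟨y, w⟩ hp
    simp
  · rintro ⟨y, w⟩ hp
    simp only [fct_update]

/-- one step of the random extension -/
def stp2 (H : Finset (Finset (Fin n))) (f : Finset ℕ) (u v : ℕ) (Φ : (ℕ → Fin n) → ℚ)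
    (φ : ℕ → Fin n) : ℚ :=
  (∑ w ∈ (nb H (f.image φ)).erase (φ u), Φ (Function.update φ v w)) /
    ((nb H (f.image φ)).card - 1 : ℕ)

/-- (`r! |H|` times) the expectation after `k` steps -/
noncomputable def T2 (H : Finset (Finset (Fin n))) (e : ℕ → Finset ℕ) (u v : ℕ → ℕ)
    (X0 : Fin r → ℕ) (b : ℕ → Fin n) : ℕ → ((ℕ → Fin n) → ℚ) → ℚ
  | 0, Φ => ∑ y ∈ lab r H, Φ (Function.extend X0 y b)
  | k + 1, Φ => T2 H e u v X0 b k
      (stp2 H ((e (k + 1)).erase (v (k + 1))) (u (k + 1)) (v (k + 1)) Φ)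

/-- the tight tree with the new vertices `v k` and the old vertices `u k` -/
structure Tr2 (H : Finset (Finset (Fin n))) (r c : ℕ) (e : ℕ → Finset ℕ) (u v : ℕ → ℕ)
    (X0 : Fin r → ℕ) : Prop where
  uni : ∀ h ∈ H, h.card = r
  two : 2 ≤ c → ∀ f ∈ shadow H, 2 ≤ (nb H f).card
  tr : Tr r c e v X0
  old : ∀ k, 1 ≤ k → k < c → ∃ j, j < k ∧ u k ∈ e j ∧ u k ∉ (e k).erase (v k) ∧
    insert (u k) ((e k).erase (v k)) = e j

section

variable {H : Finset (Finset (Fin n))} {c : ℕ} {e : ℕ → Finset ℕ} {u v : ℕ → ℕ} {X0 : Fin r → ℕ}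
  {b : ℕ → Fin n}

lemma hom_shadow (hH : ∀ h ∈ H, h.card = r) {p g : Finset ℕ} {φ : ℕ → Fin n} (hp : p.card = r)
    (hφ : p.image φ ∈ H) (hg : g ⊆ p) (hgc : g.card + 1 = r) : g.image φ ∈ shadow H := by
  obtain ⟨u, hu, hug, hins⟩ := facet (r := r) hg hgc hp
  rw [mem_shadow_iff_insert_mem]
  refine ⟨φ u, ?_, ?_⟩
  · intro h
    obtain ⟨z, hz, hzu⟩ := mem_image.1 h
    have := hom_inj hH hp hφ (Finset.mem_coe.2 (hg hz)) (Finset.mem_coe.2 hu) hzu
    exact hug (this ▸ hz)
  · rw [← image_insert, hins]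
    exact hφ

lemma Tr.fc (ht : Tr r c e v X0) {k : ℕ} (hk1 : 1 ≤ k) (hk : k < c) :
    ((e k).erase (v k)).card + 1 = r := by
  have h1 := ht.mem k hk1 hk
  have h2 : 0 < (e k).card := card_pos.2 ⟨_, h1⟩
  rw [card_erase_of_mem h1, ← ht.card k hk]
  omega

lemma Tr2.two' (ht : Tr2 H r c e u v X0) {k : ℕ} (hk : k + 1 < c) {φ : ℕ → Fin n}
    (hφ : Hom H e k φ) : 2 ≤ (nb H (((e (k + 1)).erase (v (k + 1))).image φ)).card := by
  obtain ⟨p, hp, hsub⟩ := ht.tr.sub (k + 1) (by omega) hk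
  exact ht.two (by omega) _ (hom_shadow ht.uni (ht.tr.card p (by omega)) (hφ p (by omega)) hsub
    (ht.tr.fc (by omega) hk))

lemma Tr2.oldnb (ht : Tr2 H r c e u v X0) {k : ℕ} (hk : k + 1 < c) {φ : ℕ → Fin n}
    (hφ : Hom H e k φ) : φ (u (k + 1)) ∈ nb H (((e (k + 1)).erase (v (k + 1))).image φ) := by
  obtain ⟨p, hp, h1, h2, h3⟩ := ht.old (k + 1) (by omega) hk
  refine mem_nb.2 ⟨?_, ?_⟩
  · intro h
    obtain ⟨z, hz, hzu⟩ := mem_image.1 h
    have := hom_inj ht.uni (ht.tr.card p (by omega)) (hφ p (by omega))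
      (Finset.mem_coe.2 (h3 ▸ mem_insert_of_mem hz)) (Finset.mem_coe.2 h1) hzu
    exact h2 (this ▸ hz)
  · rw [← image_insert, h3]
    exact hφ p (by omega)

lemma Tr2.mono (ht : Tr2 H r c e u v X0) : ∀ (k : ℕ), k < c → ∀ (Φ Ψ : (ℕ → Fin n) → ℚ),
    (∀ φ, Hom H e k φ → Φ φ ≤ Ψ φ) → T2 H e u v X0 b k Φ ≤ T2 H e u v X0 b k Ψ := by
  intro k
  induction k with
  | zero =>
    intro _ Φ Ψ h
    exact sum_le_sum fun y hy => h _ (ht.tr.hom0 hy)
  | succ k ih =>
    intro hk Φ Ψ h
    refine ih (by omega) _ _ fun φ hφ => ?_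
    unfold stp2
    refine div_le_div_of_nonneg_right ?_ (by positivity)
    exact sum_le_sum fun w hw => h _ (ht.tr.homS hk hφ (mem_of_mem_erase hw))

lemma Tr2.congr (ht : Tr2 H r c e u v X0) {k : ℕ} (hk : k < c) {Φ Ψ : (ℕ → Fin n) → ℚ}
    (h : ∀ φ, Hom H e k φ → Φ φ = Ψ φ) : T2 H e u v X0 b k Φ = T2 H e u v X0 b k Ψ :=
  le_antisymm (ht.mono k hk Φ Ψ fun φ hφ => (h φ hφ).le)
    (ht.mono k hk Ψ Φ fun φ hφ => (h φ hφ).ge)

lemma T2_sum {ι : Type} (s : Finset ι) : ∀ (k : ℕ) (Φ : ι → (ℕ → Fin n) → ℚ),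
    T2 H e u v X0 b k (fun φ => ∑ i ∈ s, Φ i φ) = ∑ i ∈ s, T2 H e u v X0 b k (Φ i) := by
  intro k
  induction k with
  | zero =>
    intro Φ
    simp only [T2]
    rw [sum_comm]
  | succ k ih =>
    intro Φ
    simp only [T2]
    rw [← ih]
    congr 1
    funext φ
    simp only [stp2]
    rw [sum_comm, sum_div]

lemma T2_add (k : ℕ) (Φ Ψ : (ℕ → Fin n) → ℚ) :
    T2 H e u v X0 b k (fun φ => Φ φ + Ψ φ) = T2 H e u v X0 b k Φ + T2 H e u v X0 b k Ψ := by
  have h := T2_sum (H := H) (e := e) (u := u) (v := v) (X0 := X0) (b := b)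
    (univ : Finset Bool) k (fun i => if i then Φ else Ψ)
  simpa using h

lemma T2_smul (a : ℚ) : ∀ (k : ℕ) (Φ : (ℕ → Fin n) → ℚ),
    T2 H e u v X0 b k (fun φ => a * Φ φ) = a * T2 H e u v X0 b k Φ := by
  intro k
  induction k with
  | zero =>
    intro Φ
    simp only [T2]
    rw [mul_sum]
  | succ k ih =>
    intro Φ
    simp only [T2]
    rw [← ih]
    congr 1
    funext φ
    simp only [stp2]
    rw [← mul_sum, mul_div_assoc]

/-- the enumeration of the previous edge -/
lemma enum2 {f p : Finset ℕ} {v u : ℕ} (hpc : p.card = r) (hins : insert u f = p)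
    (hv : v ∉ f) {X : Fin r → ℕ} (hX : Function.Injective X) (hXe : univ.image X = insert v f) :
    ∃ (i : Fin r) (X' : Fin r → ℕ), X i = v ∧ X' i = u ∧ Function.Injective X' ∧
      univ.image X' = p ∧ (univ.erase i).image X' = f ∧ (∀ j, j ≠ i → X' j = X j) := by
  have hmem : v ∈ univ.image X := hXe ▸ mem_insert_self _ _
  obtain ⟨i, -, hi⟩ := mem_image.1 hmem
  have hers : (univ.erase i).image X = f := by
    have h1 : insert (X i) ((univ.erase i).image X) = insert v f := by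
      rw [← image_insert, insert_erase (mem_univ i), hXe]
    have h2 : X i ∉ (univ.erase i).image X := by
      intro h
      obtain ⟨j, hj, hji⟩ := mem_image.1 h
      exact ne_of_mem_erase hj (hX hji)
    rw [← erase_insert h2, h1, hi, erase_insert hv]
  have hX'1 : ∀ j, j ≠ i → Function.update X i u j = X j := fun j hj =>
    Function.update_of_ne hj _ _
  have hers' : (univ.erase i).image (Function.update X i u) = f := by
    rw [← hers]
    exact image_congr fun j hj => hX'1 j (ne_of_mem_erase (Finset.mem_coe.1 hj))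
  have himg : univ.image (Function.update X i u) = p := by
    rw [← insert_erase (mem_univ i), image_insert, Function.update_self, hers', hins]
  refine ⟨i, Function.update X i u, hi, Function.update_self _ _ _, ?_, himg, hers', hX'1⟩
  have h2 : (univ.image (Function.update X i u)).card = (univ : Finset (Fin r)).card := by
    rw [himg, hpc, card_univ, Fintype.card_fin]
  exact fun a b hab => (card_image_iff.1 h2) (by simp) (by simp) hab

/-- independence of the last vertex -/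
lemma Tr2.indep (ht : Tr2 H r c e u v X0) {k : ℕ} (hk : k + 1 < c)
    (Φ : (ℕ → Fin n) → ℚ)
    (hΦ : ∀ φ w, Φ (Function.update φ (v (k + 1)) w) = Φ φ) :
    T2 H e u v X0 b (k + 1) Φ = T2 H e u v X0 b k Φ := by
  show T2 H e u v X0 b k
    (stp2 H ((e (k + 1)).erase (v (k + 1))) (u (k + 1)) (v (k + 1)) Φ) = _
  refine ht.congr (by omega) fun φ hφ => ?_
  unfold stp2
  rw [sum_congr rfl fun w _ => hΦ φ w, sum_const, nsmul_eq_mul, card_erase_of_mem (ht.oldnb hk hφ)]
  have h2 := ht.two' hk hφ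
  have h3 : (((nb H (((e (k + 1)).erase (v (k + 1))).image φ)).card - 1 : ℕ) : ℚ) ≠ 0 := by
    have : (nb H (((e (k + 1)).erase (v (k + 1))).image φ)).card - 1 ≠ 0 := by omega
    exact_mod_cast this
  field_simp

/-- the marginal law -/
lemma Tr2.law (ht : Tr2 H r c e u v X0) : ∀ (k : ℕ), k < c →
    ∀ j, j ≤ k → ∀ X : Fin r → ℕ, Function.Injective X → univ.image X = e j →
    ∀ G : (Fin r → Fin n) → ℚ,
      T2 H e u v X0 b k (fun φ => G (φ ∘ X)) = ∑ y ∈ lab r H, G y := by
  intro k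
  induction k with
  | zero =>
    intro h0 j hj X hX hXe G
    exact ht.tr.law (b := b) ht.uni 0 h0 j hj X hX hXe G
  | succ k ih =>
    intro hk j hj X hX hXe G
    have hj' : j ≤ k ∨ j = k + 1 := by omega
    rcases hj' with hj' | rfl
    · rw [ht.indep hk, ih (by omega) j hj' X hX hXe G]
      intro φ w
      congr 1
      funext i
      simp only [Function.comp_apply]
      refine Function.update_of_ne ?_ _ _
      intro h
      refine ht.tr.new (k + 1) (by omega) hk j (by omega) ?_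
      rw [← h, ← hXe]; exact mem_image_of_mem _ (mem_univ _)
    · obtain ⟨p, hp, h1, h2, h3⟩ := ht.old (k + 1) (by omega) hk
      obtain ⟨i, X', hi, hiu, hX'i, hX'e, hers, hX'X⟩ := enum2 (ht.tr.card p (by omega)) h3
        (notMem_erase (v (k + 1)) (e (k + 1))) hX
        (hXe.trans (insert_erase (ht.tr.mem (k + 1) (by omega) hk)).symm)
      show T2 H e u v X0 b k
        (stp2 H ((e (k + 1)).erase (v (k + 1))) (u (k + 1)) (v (k + 1)) _) = _
      rw [← swap_sum2 ht.uni (ht.two (by omega)) i G, ← ih (by omega) p (by omega) X' hX'i hX'e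
        (fun y => (∑ w ∈ (nb H (fct y i)).erase (y i), G (Function.update y i w)) /
          ((nb H (fct y i)).card - 1 : ℕ))]
      refine ht.congr (by omega) fun φ hφ => ?_
      have h1 : fct (φ ∘ X') i = ((e (k + 1)).erase (v (k + 1))).image φ := by
        rw [fct, ← image_image, hers]
      unfold stp2
      rw [h1, Function.comp_apply, hiu]
      congr 1
      refine sum_congr rfl fun w _ => congrArg G ?_
      funext l
      by_cases hl : l = i
      · subst hl
        simp [hi]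
      · rw [Function.update_of_ne hl, Function.comp_apply, Function.comp_apply, hX'X l hl,
          Function.update_of_ne]
        intro h
        exact hl (hX (h.trans hi.symm))

end

end Pool.Agent.TH636.KT
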